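import Pool.Agent.R751.MB.Res
import Pool.Agent.R751.MB.Lin
import Pool.Agent.R751.MB.Mix

/-!
# The Poincaré inequality for the unit balls of admissible norms
-/

set_option autoImplicit false

namespace Pool.Agent.W5h33.KL

open MeasureTheory Set Filter Topology
open scoped ENNReal InnerProductSpace Pointwise
open Pool.Agent.R751.MB

section

variable {κ : Type} [Fintype κ]

theorem adm_body {K : Set (Eu κ)} (hc : IsCompact K) (hi : (interior K).Nonempty) :
    Adm (K.indicator fun _ => (1 : ℝ)) := by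
  have hfin : volume K ≠ ⊤ := hc.measure_lt_top.ne
  have hv : 0 < volume K := lt_of_lt_of_le (isOpen_interior.measure_pos volume hi)
    (measure_mono interior_subset)
  obtain ⟨R, hR⟩ : ∃ R : ℝ, ∀ x ∈ K, ‖x‖ ≤ R := hc.isBounded.exists_norm_le
  have hK := hc.measurableSet
  refine ⟨fun x => indicator_nonneg (fun _ _ => zero_le_one) x, ?_, ?_,
    measurable_const.indicator hK⟩
  · have h1 : (fun x : Eu κ => (1 + ‖x‖ ^ 2) * K.indicator (fun _ => (1 : ℝ)) x) = K.indicator
        fun x => 1 + ‖x‖ ^ 2 := by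
      funext x
      by_cases hx : x ∈ K
      · simp [hx]
      · simp [hx]
    rw [h1, integrable_indicator_iff hK]
    refine Measure.integrableOn_of_bounded (M := 1 + R ^ 2) hfin
      (by fun_prop : Continuous fun x : Eu κ => 1 + ‖x‖ ^ 2).aestronglyMeasurable ?_
    refine (ae_restrict_iff' hK).mpr (Eventually.of_forall fun x hx => ?_)
    rw [Real.norm_eq_abs, abs_of_nonneg (by positivity)]
    have h2 := hR x hx
    have := pow_le_pow_left₀ (norm_nonneg x) h2 2
    linarith
  · rw [integral_indicator hK, setIntegral_const, smul_eq_mul, mul_one]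
    exact ENNReal.toReal_pos hv.ne' hfin

theorem lcn_body {K : Set (Eu κ)} (hc : Convex ℝ K) : LCn (K.indicator fun _ => (1 : ℝ)) := by
  intro x y t h0 h1
  by_cases hx : x ∈ K
  · by_cases hy : y ∈ K
    · have h2 : (1 - t) • x + t • y ∈ K := hc hx hy (by linarith) h0.le (by ring)
      rw [indicator_of_mem hx, indicator_of_mem hy, indicator_of_mem h2, Real.one_rpow,
        Real.one_rpow, mul_one]
    · rw [indicator_of_notMem hy, Real.zero_rpow h0.ne', mul_zero]
      exact indicator_nonneg (fun _ _ => zero_le_one) _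
  · rw [indicator_of_notMem hx, Real.zero_rpow (by linarith : (1 - t) ≠ 0), zero_mul]
    exact indicator_nonneg (fun _ _ => zero_le_one) _

theorem ball_body {N : Eu κ → ℝ} (h : Nrm N) : IsCompact {x | N x ≤ 1} ∧
    Convex ℝ {x | N x ≤ 1} ∧ (interior {x | N x ≤ 1}).Nonempty ∧
    ∀ x ∈ {x | N x ≤ 1}, -x ∈ {x | N x ≤ 1} := by
  have hp := h.pow
  have hc := hp.cont
  refine ⟨Metric.isCompact_of_isClosed_isBounded (isClosed_le hc continuous_const)
    (hp.bdd le_rfl), ?_, ?_, ?_⟩
  · intro x hx y hy a b ha hb hab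
    have h1 := hp.conv.2 (mem_univ x) (mem_univ y) ha hb hab
    simp only [mem_ofPred_eq, smul_eq_mul] at hx hy h1 ⊢
    nlinarith
  · refine ⟨0, interior_maximal (t := {x | N x < 1}) (fun z (hz : N z < 1) => hz.le)
      (isOpen_lt hc continuous_const) ?_⟩
    have := h.smul 0 0
    simp only [zero_smul, abs_zero, zero_mul] at this
    show N 0 < 1
    rw [this]
    exact one_pos
  · intro x hx
    have h1 := h.smul (-1) x
    rw [neg_one_smul, abs_neg, abs_one, one_mul] at h1
    show N (-x) ≤ 1
    rw [h1]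
    exact hx

end

theorem ind_pull {κ : Type} [Fintype κ] {k : ℕ} (e : Eu κ ≃ₗ[ℝ] Eu (Fin k)) (N : Eu κ → ℝ) :
    (fun z => ({x | N x ≤ 1} : Set (Eu κ)).indicator (fun _ => (1 : ℝ)) (e.symm z)) =
      ind {z | N (e.symm z) ≤ 1} := by
  funext z
  unfold ind
  by_cases hz : N (e.symm z) ≤ 1
  · rw [indicator_of_mem (by exact hz), indicator_of_mem (by exact hz)]
  · rw [indicator_of_notMem (by exact hz), indicator_of_notMem (by exact hz)]

/-- the Poincaré inequality for the unit balls of admissible norms -/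
theorem an_ap (hSYM : S_SYM) (hMAT : S_MAT) (hHER : S_HER) : ∃ A : ℝ, 0 < A ∧
    ∀ (k : ℕ) (N : Eu (Fin k) → ℝ), AN k N → AP A (ind {x | N x ≤ 1}) := by
  obtain ⟨A1, hA1, H1⟩ := hSYM
  obtain ⟨A2, hA2, H2⟩ := hMAT
  obtain ⟨A3, hA3, H3⟩ := hHER
  refine ⟨max A1 (max A2 A3), lt_max_of_lt_left hA1, fun k N h => ?_⟩
  cases h with
  | sym _ _ hk hN hinv =>
    obtain ⟨b1, b2, b3, -⟩ := ball_body hN
    refine (H1 k _ hk (adm_body b1 b3) (lcn_body b2) fun σ x y hxy => ?_).mono (le_max_left _ _)
    have e := hinv σ x y hxy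
    by_cases hx : N x ≤ 1
    · rw [indicator_of_mem (by rw [← e] at hx; exact hx), indicator_of_mem (by exact hx)]
    · rw [indicator_of_notMem (by rw [← e] at hx; exact hx), indicator_of_notMem (by exact hx)]
  | mat m l _ e N hm hl hlm hN hinv =>
    obtain ⟨b1, b2, b3, -⟩ := ball_body hN
    have h1 := H2 m l _ hm hl hlm (adm_body b1 b3) (lcn_body b2) fun g hg X => by
      have e := hinv g hg X
      by_cases hx : N X ≤ 1
      · rw [indicator_of_mem (by rw [← e] at hx; exact hx), indicator_of_mem (by exact hx)]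
      · rw [indicator_of_notMem (by rw [← e] at hx; exact hx), indicator_of_notMem (by exact hx)]
    have h2 := (lin _ _ _ e _ h1).mono ((le_max_left A2 A3).trans (le_max_right A1 _))
    rw [ind_pull] at h2
    exact h2
  | her 𝕜 D ι F _ e N hD hF hN hinv =>
    obtain ⟨b1, b2, b3, -⟩ := ball_body hN
    have h1 := H3 𝕜 D hD ι F hF _ (adm_body b1 b3) (lcn_body b2) fun U hU x y hxy => by
      have e := hinv U hU x y hxy
      by_cases hx : N x ≤ 1
      · rw [indicator_of_mem (by rw [← e] at hx; exact hx), indicator_of_mem (by exact hx)]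
      · rw [indicator_of_notMem (by rw [← e] at hx; exact hx), indicator_of_notMem (by exact hx)]
    have h2 := (lin _ _ _ e _ h1).mono ((le_max_right A2 A3).trans (le_max_right A1 _))
    rw [ind_pull] at h2
    exact h2

end Pool.Agent.W5h33.KL
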