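import Pool.Agent.W5h33.KL.Fib

/-!
# Homothetic families
-/

set_option autoImplicit false

namespace Pool.Agent.W5h33.KL

open MeasureTheory Set Filter Topology ProbabilityTheory
open scoped ENNReal InnerProductSpace Pointwise
open Pool.Agent.R754.KG (E un sl Rv un_prob un_int)
open Pool.Agent.R751.MB (AP)

variable {A : ℝ}

theorem zero_mem {n : ℕ} {B : Set (E n)} (hc : Convex ℝ B) (hi : B.Nonempty)
    (hs : ∀ x ∈ B, -x ∈ B) : (0 : E n) ∈ B := by
  obtain ⟨x, hx⟩ := hi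
  have h := hc hx (hs x hx) (by norm_num : (0 : ℝ) ≤ 1 / 2)
    (by norm_num : (0 : ℝ) ≤ 1 / 2) (by norm_num)
  rwa [smul_neg, add_neg_cancel] at h

theorem smul_sub {n : ℕ} {B : Set (E n)} (hc : Convex ℝ B) (h0 : (0 : E n) ∈ B) {a b : ℝ}
    (ha : 0 ≤ a) (hab : a ≤ b) : a • B ⊆ b • B := by
  intro x hx
  have h1 : b • B = a • B + (b - a) • B := by
    rw [← hc.add_smul ha (by linarith)]
    congr 1
    ring
  rw [h1]
  refine ⟨x, hx, 0, ⟨0, h0, smul_zero _⟩, add_zero _⟩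

/-- if `r B` has positive volume then `r ≠ 0` or the dimension is `0` -/
theorem r_cases {n : ℕ} {r : ℝ} {S : Set (E n)} (h : volume (r • S) ≠ 0) : r ≠ 0 ∨ n = 0 := by
  by_contra hc
  push Not at hc
  obtain ⟨h1, h2⟩ := hc
  rw [Measure.addHaar_smul, finrank_euclideanSpace_fin, h1, zero_pow h2, abs_zero,
    ENNReal.ofReal_zero, zero_mul] at h
  exact h rfl

/-- sets in a space of dimension `0` -/
theorem smul_zero_dim {S : Set (E 0)} (hS : S.Nonempty) (r : ℝ) : r • S = S := by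
  obtain ⟨x, hx⟩ := hS
  ext y
  rw [Subsingleton.elim y x]
  constructor
  · intro _
    exact hx
  · intro _
    exact ⟨x, hx, Subsingleton.elim _ _⟩

theorem ap_smul {n : ℕ} {r : ℝ} {S : Set (E n)} (hS : S.Nonempty) (h : volume (r • S) ≠ 0)
    (hA : AP A (Pool.Agent.R751.MB.ind S)) : AP A (Pool.Agent.R751.MB.ind (r • S)) := by
  rcases r_cases h with h1 | h1
  · have h2 := Pool.Agent.R751.MB.lin (Fin n) (Fin n) A (LinearEquiv.smulOfNeZero ℝ (E n) r h1) _ hA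
    refine cast ?_ h2
    congr 1
    funext z
    unfold Pool.Agent.R751.MB.ind
    have e : (LinearEquiv.smulOfNeZero ℝ (E n) r h1).symm z = r⁻¹ • z := by
      rw [LinearEquiv.symm_apply_eq]
      show z = r • (r⁻¹ • z)
      rw [smul_smul, mul_inv_cancel₀ h1, one_smul]
    by_cases hz : z ∈ r • S
    · rw [indicator_of_mem hz]
      rw [mem_smul_set_iff_inv_smul_mem₀ h1] at hz
      rw [e, indicator_of_mem hz]
    · rw [indicator_of_notMem hz]
      rw [mem_smul_set_iff_inv_smul_mem₀ h1] at hz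
      rw [e, indicator_of_notMem hz]
  · subst h1
    rw [smul_zero_dim hS]
    exact hA

/-- second moments of linear functionals on dilates -/
theorem mom_smul {n : ℕ} {S : Set (E n)} {r : ℝ}
    (hr : volume (r • S) ≠ 0) (L : E n →ₗ[ℝ] ℝ) :
    ∫ x, L x ^ 2 ∂(un (r • S)) = r ^ 2 * ∫ x, L x ^ 2 ∂(un S) := by
  have hLc : Continuous L := L.continuous_of_finiteDimensional
  have hc2 : Continuous fun x => L x ^ 2 := hLc.pow 2
  rcases r_cases hr with h1 | h1
  · have h2 := un_img (LinearEquiv.smulOfNeZero ℝ (E n) r h1) (S := S)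
    have h3 : (LinearEquiv.smulOfNeZero ℝ (E n) r h1) '' S = r • S := rfl
    have hc : Continuous (LinearEquiv.smulOfNeZero ℝ (E n) r h1) :=
      LinearMap.continuous_of_finiteDimensional
        ((LinearEquiv.smulOfNeZero ℝ (E n) r h1 : E n ≃ₗ[ℝ] E n) : E n →ₗ[ℝ] E n)
    rw [h3] at h2
    rw [h2, integral_map hc.measurable.aemeasurable hc2.aestronglyMeasurable,
      ← integral_const_mul]
    refine integral_congr_ae (Eventually.of_forall fun x => ?_)
    show L (r • x) ^ 2 = r ^ 2 * L x ^ 2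
    rw [map_smul, smul_eq_mul, mul_pow]
  · subst h1
    have h2 : ∀ x : E 0, L x = 0 := fun x => by rw [Subsingleton.elim x 0, map_zero]
    simp [h2]

/-- homothetic families -/
def hf (I : Set ℝ) (g : ℝ → ℝ) {n : ℕ} (B : Set (E n)) (s : ℝ) : Set (E n) :=
  {x | s ∈ I ∧ x ∈ g s • B}

theorem hf_mem {I : Set ℝ} {g : ℝ → ℝ} {n : ℕ} {B : Set (E n)} {s : ℝ} (hs : s ∈ I) :
    hf I g B s = g s • B := by
  ext x
  exact ⟨fun h => h.2, fun h => ⟨hs, h⟩⟩

theorem hf_in {I : Set ℝ} {g : ℝ → ℝ} {n : ℕ} {B : Set (E n)} {s : ℝ}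
    (h : (hf I g B s).Nonempty) : s ∈ I := h.some_mem.1

/-- `g(s) ≤ g(0)` -/
theorem g_le {I : Set ℝ} {g : ℝ → ℝ} (hI : ∀ s ∈ I, -s ∈ I) (hg : ConcaveOn ℝ I g)
    (he : ∀ s ∈ I, g (-s) = g s) {s : ℝ} (hs : s ∈ I) :
    (0 : ℝ) ∈ I ∧ g s ≤ g 0 := by
  have h1 := hI s hs
  have e : (1 / 2 : ℝ) • s + (1 / 2 : ℝ) • (-s) = 0 := by
    rw [smul_neg, add_neg_cancel]
  have h2 := hg.1 hs h1 (by norm_num : (0 : ℝ) ≤ 1 / 2) (by norm_num : (0 : ℝ) ≤ 1 / 2)
    (by norm_num)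
  have h3 := hg.2 hs h1 (by norm_num : (0 : ℝ) ≤ 1 / 2) (by norm_num : (0 : ℝ) ≤ 1 / 2)
    (by norm_num)
  rw [e] at h2 h3
  rw [he s hs, smul_eq_mul] at h3
  exact ⟨h2, by linarith⟩

/-- `g(s) ≥ g(0) / 2` for `|s| ≤ S / 2`, if `S ∈ I` -/
theorem g_ge {I : Set ℝ} {g : ℝ → ℝ} (hI : ∀ s ∈ I, -s ∈ I) (hg : ConcaveOn ℝ I g)
    (hn : ∀ s ∈ I, 0 ≤ g s) (he : ∀ s ∈ I, g (-s) = g s) {S s : ℝ} (hS0 : 0 ≤ S) (hS : S ∈ I)
    (hs : |s| ≤ S / 2) : s ∈ I ∧ g 0 / 2 ≤ g s := by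
  have key : ∀ r : ℝ, 0 ≤ r → r ≤ S / 2 → r ∈ I ∧ g 0 / 2 ≤ g r := by
    intro r hr hr2
    obtain ⟨h0, -⟩ := g_le hI hg he hS
    have hg0 := hn 0 h0
    rcases hS0.eq_or_lt with h1 | h1
    · have : r = 0 := by linarith
      subst this
      exact ⟨h0, by linarith⟩
    · have ht1 : 0 ≤ r / S := by positivity
      have ht2 : r / S ≤ 1 / 2 := by
        rw [div_le_iff₀ h1]; linarith
      have e : (1 - r / S) • (0 : ℝ) + (r / S) • S = r := by
        rw [smul_zero, zero_add, smul_eq_mul, div_mul_cancel₀ _ h1.ne']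
      have h2 := hg.1 h0 hS (by linarith : 0 ≤ 1 - r / S) ht1 (by ring)
      have h3 := hg.2 h0 hS (by linarith : 0 ≤ 1 - r / S) ht1 (by ring)
      rw [e] at h2 h3
      rw [smul_eq_mul, smul_eq_mul] at h3
      have h4 := mul_nonneg ht1 (hn S hS)
      refine ⟨h2, ?_⟩
      nlinarith
  rcases le_total 0 s with h1 | h1
  · rw [abs_of_nonneg h1] at hs
    exact key s h1 hs
  · rw [abs_of_nonpos h1] at hs
    obtain ⟨h2, h3⟩ := key (-s) (by linarith) hs
    have h4 := hI _ h2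
    have h5 := he _ h2
    rw [neg_neg] at h4 h5
    rw [← h5] at h3
    exact ⟨h4, h3⟩

theorem hom_fd {n : ℕ} {B : Set (E n)} {I : Set ℝ} {g : ℝ → ℝ} (hI : ∀ s ∈ I, -s ∈ I)
    (hg : ConcaveOn ℝ I g) (hn : ∀ s ∈ I, 0 ≤ g s) (he : ∀ s ∈ I, g (-s) = g s)
    (hc : IsCompact B) (hcv : Convex ℝ B) (hi : (interior B).Nonempty)
    (hs : ∀ x ∈ B, -x ∈ B) (hp : AP A (Pool.Agent.R751.MB.ind B)) : FD A 4 (hf I g B) := by
  have hBn : B.Nonempty := hi.mono interior_subset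
  have h0 := zero_mem hcv hBn hs
  refine ⟨fun s => ?_, fun s s' a b ha hb hab x hx y hy => ?_, fun s x hx => ?_, fun s x hx => ?_,
    fun s hv => ?_, fun S s s' h1 h2 h3 h4 L => ?_⟩
  · by_cases hsI : s ∈ I
    · rw [hf_mem hsI]
      exact hc.smul _
    · have : hf I g B s = ∅ := by
        rw [← not_nonempty_iff_eq_empty]
        exact fun h => hsI (hf_in h)
      rw [this]
      exact isCompact_empty
  · obtain ⟨hx1, hx2⟩ := hx
    obtain ⟨hy1, hy2⟩ := hy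
    have h5 := hg.2 hx1 hy1 ha hb hab
    have h7 := hg.1 hx1 hy1 ha hb hab
    simp only [smul_eq_mul] at h5 h7
    refine ⟨h7, ?_⟩
    have h6 : a • x + b • y ∈ (a * g s + b * g s') • B := by
      rw [hcv.add_smul (mul_nonneg ha (hn _ hx1)) (mul_nonneg hb (hn _ hy1))]
      refine ⟨a • x, ?_, b • y, ?_, rfl⟩
      · obtain ⟨x', hx', hxe⟩ := hx2
        exact ⟨x', hx', by rw [← hxe]; simp only [smul_smul]⟩
      · obtain ⟨x', hx', hxe⟩ := hy2
        exact ⟨x', hx', by rw [← hxe]; simp only [smul_smul]⟩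
    exact smul_sub hcv h0 (add_nonneg (mul_nonneg ha (hn _ hx1)) (mul_nonneg hb (hn _ hy1))) h5 h6
  · obtain ⟨hx1, hx2⟩ := hx
    refine ⟨hI s hx1, ?_⟩
    rw [he s hx1]
    exact hx2
  · obtain ⟨hx1, x', hx', hxe⟩ := hx
    refine ⟨hx1, -x', hs x' hx', ?_⟩
    show g s • -x' = -x
    rw [smul_neg, ← hxe]
  · have hsI : s ∈ I := hf_in (nonempty_of_measure_ne_zero hv)
    rw [hf_mem hsI] at hv ⊢
    exact ap_smul hBn hv hp
  · have hSI : S ∈ I := hf_in h3
    have hsI : s ∈ I := hf_in (nonempty_of_measure_ne_zero h4)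
    have hS0 : 0 ≤ S := (abs_nonneg s).trans h1
    obtain ⟨h5, h6⟩ := g_ge hI hg hn he hS0 hSI h2
    obtain ⟨h7, h8⟩ := g_le hI hg he hsI
    have hgs := hn s hsI
    rw [hf_mem hsI] at h4 ⊢
    rw [hf_mem h5]
    have h9 : volume (g s' • B) ≠ 0 := by
      rcases r_cases h4 with h10 | h10
      · have h11 : 0 < g s := lt_of_le_of_ne hgs (Ne.symm h10)
        have h12 : 0 < g s' := by linarith
        rw [Measure.addHaar_smul]
        refine mul_ne_zero ?_ (lt_of_lt_of_le (isOpen_interior.measure_pos volume hi)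
          (measure_mono interior_subset)).ne'
        rw [Ne, ENNReal.ofReal_eq_zero, not_le]
        positivity
      · subst h10
        rw [smul_zero_dim hBn] at h4 ⊢
        exact h4
    rw [mom_smul h4, mom_smul h9, ← mul_assoc]
    refine mul_le_mul_of_nonneg_right ?_ (integral_nonneg fun x => sq_nonneg _)
    have h10 := hn _ h5
    nlinarith

end Pool.Agent.W5h33.KL
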