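import Pool.Agent.W5h33.KL.Fam
import Pool.Agent.R751.MB.Ten
import Pool.Agent.R751.MB.Mix
import Pool.Agent.R751.MB.Lin

/-!
# Bodies fibred over few ridge functions: the fibres
-/

set_option autoImplicit false

namespace Pool.Agent.W5h33.KL

open MeasureTheory Set Filter Topology ProbabilityTheory
open scoped ENNReal InnerProductSpace Pointwise
open Pool.Agent.R754.KG (E un sl Rv un_prob un_int)
open Pool.Agent.R751.MB (AP)

variable {N m : ℕ} {k : Fin N → ℕ} {A Q : ℝ} {v : Fin N → E m} {F : ∀ i, ℝ → Set (E (k i))} {D : ℕ}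

/-- the Poincaré inequality for the fibres -/
theorem ap_fib (h : ∀ i, FD A Q (F i)) (hA : 0 ≤ A) (φ : (∀ i, E (k i)) ≃ₗ[ℝ] E D) (t : E m)
    (ht : volume (sl (rk φ v F) t) ≠ 0) :
    AP A (Pool.Agent.R751.MB.ind (sl (rk φ v F) t)) := by
  have h1 := Pool.Agent.R751.MB.ap_pi Pool.Agent.R751.MB.ten hA N k D φ
    (fun i => Pool.Agent.R751.MB.ind (F i ⟪v i, t⟫_ℝ)) fun i => (h i).poi _ (fac_ne φ t ht i)
  refine cast ?_ h1
  congr 1
  rw [sl_eq φ t]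
  funext z
  unfold Pool.Agent.R751.MB.ind
  by_cases hz : z ∈ φ '' univ.pi fun i => F i ⟪v i, t⟫_ℝ
  · rw [indicator_of_mem hz]
    obtain ⟨x, hx, rfl⟩ := hz
    refine Finset.prod_eq_one fun i _ => ?_
    rw [φ.symm_apply_apply]
    exact indicator_of_mem (hx i (mem_univ i)) _
  · rw [indicator_of_notMem hz]
    have h2 : ∃ i, φ.symm z i ∉ F i ⟪v i, t⟫_ℝ := by
      by_contra hc
      push Not at hc
      exact hz ⟨φ.symm z, fun i _ => hc i, φ.apply_symm_apply z⟩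
    obtain ⟨i, hi⟩ := h2
    exact Finset.prod_eq_zero (Finset.mem_univ i) (indicator_of_notMem hi _)

/-- linear functionals have mean zero on symmetric sets -/
theorem lin_zero {n : ℕ} {S : Set (E n)} (hS : ∀ x ∈ S, -x ∈ S) (L : E n →ₗ[ℝ] ℝ) :
    ∫ x, L x ∂(un S) = 0 := by
  have h2 := un_img (LinearEquiv.neg ℝ : E n ≃ₗ[ℝ] E n) (S := S)
  have himg : (LinearEquiv.neg ℝ : E n ≃ₗ[ℝ] E n) '' S = S := by
    ext x
    constructor
    · rintro ⟨y, hy, rfl⟩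
      exact hS y hy
    · intro hx
      exact ⟨-x, hS x hx, neg_neg x⟩
  rw [himg] at h2
  have hLc : Continuous L := L.continuous_of_finiteDimensional
  have hc : Continuous (LinearEquiv.neg ℝ : E n ≃ₗ[ℝ] E n) :=
    LinearMap.continuous_of_finiteDimensional ((LinearEquiv.neg ℝ : E n ≃ₗ[ℝ] E n) : E n →ₗ[ℝ] E n)
  have h3 : ∫ x, L x ∂(un S) = ∫ x, L (-x) ∂(un S) := by
    conv_lhs => rw [h2]
    rw [integral_map hc.measurable.aemeasurable hLc.aestronglyMeasurable]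
    rfl
  have h4 : ∫ x, L (-x) ∂(un S) = -∫ x, L x ∂(un S) := by
    rw [← integral_neg]
    refine integral_congr_ae (Eventually.of_forall fun x => ?_)
    simp only [map_neg]
  linarith

/-- the fibres are symmetric -/
theorem sl_neg (h : ∀ i, FD A Q (F i)) (φ : (∀ i, E (k i)) ≃ₗ[ℝ] E D) (t : E m) :
    ∀ x ∈ sl (rk φ v F) t, -x ∈ sl (rk φ v F) t := by
  intro x hx i
  have h1 := hx i
  show φ.symm (-x) i ∈ F i ⟪v i, t⟫_ℝ
  rw [map_neg]
  exact (h i).symm _ _ h1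

theorem centred (h : ∀ i, FD A Q (F i)) (φ : (∀ i, E (k i)) ≃ₗ[ℝ] E D) (t : E m) (θ : E D) :
    ∫ x, ⟪x, θ⟫_ℝ ∂(un (sl (rk φ v F) t)) = 0 := by
  have h1 := lin_zero (sl_neg (v := v) h φ t) ((innerSL ℝ θ : E D →L[ℝ] ℝ) : E D →ₗ[ℝ] ℝ)
  rw [← h1]
  refine integral_congr_ae (Eventually.of_forall fun x => ?_)
  show ⟪x, θ⟫_ℝ = ⟪θ, x⟫_ℝ
  exact real_inner_comm _ _

/-- the part of the functional `θ` on the `i`-th block -/
noncomputable def lf (φ : (∀ i, E (k i)) ≃ₗ[ℝ] E D) (θ : E D) (i : Fin N) : E (k i) →ₗ[ℝ] ℝ :=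
  ((innerSL ℝ θ : E D →L[ℝ] ℝ) : E D →ₗ[ℝ] ℝ) ∘ₗ φ.toLinearMap ∘ₗ
    LinearMap.single ℝ (fun i => E (k i)) i

theorem lf_sum (φ : (∀ i, E (k i)) ≃ₗ[ℝ] E D) (θ : E D) (x : ∀ i, E (k i)) :
    ⟪φ x, θ⟫_ℝ = ∑ i, lf φ θ i (x i) := by
  have h1 : x = ∑ i, Pi.single i (x i) := (Finset.univ_sum_single x).symm
  conv_lhs => rw [h1, map_sum, sum_inner]
  refine Finset.sum_congr rfl fun i _ => ?_
  show _ = ⟪θ, φ (Pi.single i (x i))⟫_ℝ
  exact real_inner_comm _ _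

theorem un_sl (h : ∀ i, FD A Q (F i)) (φ : (∀ i, E (k i)) ≃ₗ[ℝ] E D) (t : E m)
    (ht : volume (sl (rk φ v F) t) ≠ 0) :
    un (sl (rk φ v F) t) = Measure.map φ (Measure.pi fun i => un (F i ⟪v i, t⟫_ℝ)) := by
  rw [sl_eq φ t, un_img φ, un_pi (fun i => fac_ne φ t ht i)
    fun i => ((h i).comp _).measure_lt_top.ne]

/-- second moments of functions of one block -/
theorem blk_mom (h : ∀ i, FD A Q (F i)) (φ : (∀ i, E (k i)) ≃ₗ[ℝ] E D) (t : E m)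
    (ht : volume (sl (rk φ v F) t) ≠ 0) (i : Fin N) (L : E (k i) →ₗ[ℝ] ℝ) :
    ∫ x, L (φ.symm x i) ^ 2 ∂(un (sl (rk φ v F) t)) =
      ∫ x, L x ^ 2 ∂(un (F i ⟪v i, t⟫_ℝ)) := by
  have hp : ∀ i, IsProbabilityMeasure (un (F i ⟪v i, t⟫_ℝ)) := fun i =>
    un_prob (fac_ne φ t ht i) ((h i).comp _).measure_lt_top.ne
  have hφc : Continuous φ := φ.toLinearMap.continuous_of_finiteDimensional
  have hφs : Continuous φ.symm := φ.symm.toLinearMap.continuous_of_finiteDimensional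
  have hLc : Continuous L := L.continuous_of_finiteDimensional
  have hc : Continuous fun x : E D => L (φ.symm x i) ^ 2 :=
    (hLc.comp ((continuous_apply i).comp hφs)).pow 2
  rw [un_sl h φ t ht, integral_map hφc.measurable.aemeasurable hc.aestronglyMeasurable]
  simp only [φ.symm_apply_apply]
  have h1 := (measurePreserving_eval (fun i => un (F i ⟪v i, t⟫_ℝ)) i).map_eq
  conv_rhs => rw [← h1]
  rw [integral_map (measurable_pi_apply i).aemeasurable (hLc.pow 2).aestronglyMeasurable]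

/-- second moments of the fibres -/
theorem fib_mom (h : ∀ i, FD A Q (F i)) (φ : (∀ i, E (k i)) ≃ₗ[ℝ] E D) (t : E m)
    (ht : volume (sl (rk φ v F) t) ≠ 0) (θ : E D) :
    ∫ x, ⟪x, θ⟫_ℝ ^ 2 ∂(un (sl (rk φ v F) t)) =
      ∑ i, ∫ x, lf φ θ i x ^ 2 ∂(un (F i ⟪v i, t⟫_ℝ)) := by
  have hS0 : ∀ i, volume (F i ⟪v i, t⟫_ℝ) ≠ 0 := fac_ne φ t ht
  have hSc : ∀ i, IsCompact (F i ⟪v i, t⟫_ℝ) := fun i => (h i).comp _
  have hS1 : ∀ i, volume (F i ⟪v i, t⟫_ℝ) ≠ ⊤ := fun i => (hSc i).measure_lt_top.ne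
  have hp : ∀ i, IsProbabilityMeasure (un (F i ⟪v i, t⟫_ℝ)) := fun i =>
    un_prob (hS0 i) (hS1 i)
  have hpp : IsProbabilityMeasure (Measure.pi fun i => un (F i ⟪v i, t⟫_ℝ)) := inferInstance
  have hφc : Continuous φ := φ.toLinearMap.continuous_of_finiteDimensional
  have hun := un_sl h φ t ht
  have hpr : IsProbabilityMeasure (un (sl (rk φ v F) t)) := by
    rw [hun]
    exact Measure.isProbabilityMeasure_map hφc.measurable.aemeasurable
  have hbd : Bornology.IsBounded (sl (rk φ v F) t) := by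
    rw [sl_eq φ t]
    exact ((isCompact_univ_pi hSc).image hφc).isBounded
  have hLc : ∀ i, Continuous (lf φ θ i) := fun i => (lf φ θ i).continuous_of_finiteDimensional
  have hLm : ∀ i, MemLp (lf φ θ i) 2 (un (F i ⟪v i, t⟫_ℝ)) := fun i => by
    rw [memLp_two_iff_integrable_sq (hLc i).aestronglyMeasurable]
    exact un_int (hS0 i) (hSc i).isBounded ((hLc i).pow 2)
  have hvar : ∀ i, variance (lf φ θ i) (un (F i ⟪v i, t⟫_ℝ)) =
      ∫ x, lf φ θ i x ^ 2 ∂(un (F i ⟪v i, t⟫_ℝ)) := by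
    intro i
    rw [variance_eq_sub (hLm i)]
    have h1 : ∫ x, (lf φ θ i) x ∂(un (F i ⟪v i, t⟫_ℝ)) = 0 := lin_zero ((h i).symm _) _
    rw [h1]
    have h3 : ∫ x, ((lf φ θ i : E (k i) → ℝ) ^ 2) x ∂(un (F i ⟪v i, t⟫_ℝ)) =
        ∫ x, lf φ θ i x ^ 2 ∂(un (F i ⟪v i, t⟫_ℝ)) := rfl
    rw [h3]
    ring
  have hinner : Continuous fun x : E D => ⟪x, θ⟫_ℝ := by fun_prop
  have hmem : MemLp (fun x : E D => ⟪x, θ⟫_ℝ) 2 (un (sl (rk φ v F) t)) := by
    rw [memLp_two_iff_integrable_sq hinner.aestronglyMeasurable]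
    exact un_int ht hbd (hinner.pow 2)
  have h1 : variance (fun x : E D => ⟪x, θ⟫_ℝ) (un (sl (rk φ v F) t)) =
      ∫ x, ⟪x, θ⟫_ℝ ^ 2 ∂(un (sl (rk φ v F) t)) := by
    rw [variance_eq_sub hmem, centred h φ t θ]
    have : ∫ x, ((fun x : E D => ⟪x, θ⟫_ℝ) ^ 2) x ∂(un (sl (rk φ v F) t)) =
      ∫ x, ⟪x, θ⟫_ℝ ^ 2 ∂(un (sl (rk φ v F) t)) := rfl
    rw [this]
    ring
  rw [← h1, hun, variance_map hinner.aestronglyMeasurable.aemeasurable hφc.measurable.aemeasurable]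
  have h2 : (fun x : E D => ⟪x, θ⟫_ℝ) ∘ φ = ∑ i, fun ω : ∀ i, E (k i) => lf φ θ i (ω i) := by
    funext ω
    rw [Finset.sum_apply]
    exact lf_sum φ θ ω
  rw [h2, variance_sum_pi hLm]
  exact Finset.sum_congr rfl fun i _ => hvar i

end Pool.Agent.W5h33.KL
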