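import Pool.Agent.W5h33.KL.Sc
import Pool.Agent.W5h33.KL.Fib
import Pool.Agent.R751.MB.Mix
import Pool.Agent.R754.KG.C
import Pool.Agent.Y506.PV.Img

/-!
# Families of bodies which are invariant under signed permutations
-/

set_option autoImplicit false

namespace Pool.Agent.W5h33.KL

open MeasureTheory Set Filter Topology
open scoped ENNReal InnerProductSpace Pointwise
open Pool.Agent.R754.KG (E un sl Rv un_prob un_int)
open Pool.Agent.R751.MB (AP)

theorem rh (x l : ℝ) (hl : 0 < l) : x ^ 2 ≤ l * |x| + x ^ 4 / l ^ 2 := by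
  rcases le_or_gt |x| l with h | h
  · have h1 : x ^ 2 = |x| * |x| := by rw [← sq, sq_abs]
    have h2 : |x| * |x| ≤ l * |x| := mul_le_mul_of_nonneg_right h (abs_nonneg x)
    have h3 : 0 ≤ x ^ 4 / l ^ 2 := by positivity
    linarith
  · have h1 : l ^ 2 ≤ x ^ 2 := by
      rw [← sq_abs x]
      exact pow_le_pow_left₀ hl.le h.le 2
    have h2 : x ^ 2 ≤ x ^ 4 / l ^ 2 := by
      rw [le_div_iff₀ (by positivity)]
      nlinarith [sq_nonneg x]
    have h3 : 0 ≤ l * |x| := by positivity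
    linarith

/-- the reverse Hölder inequality for the coordinates -/
theorem rev {C : ℝ} (hC : 1 ≤ C) (H : ∀ (n : ℕ) (w : E n → ℝ), Pool.Agent.Y506.RG.Adm w →
    Pool.Agent.Y506.PV.LCn w → ∀ θ : E n,
    Integrable (fun x => (⟪x, θ⟫_ℝ - Pool.Agent.Y506.RG.EW w fun x => ⟪x, θ⟫_ℝ) ^ 4 * w x) ∧
    Pool.Agent.Y506.RG.EW w (fun x => (⟪x, θ⟫_ℝ - Pool.Agent.Y506.RG.EW w fun x => ⟪x, θ⟫_ℝ) ^ 4) ≤
      C * (Pool.Agent.Y506.RG.VW w fun x => ⟪x, θ⟫_ℝ) ^ 2) {n : ℕ} {K : Set (E n)}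
    (hcp : IsCompact K) (hcv : Convex ℝ K) (h0 : volume K ≠ 0) (hs : ∀ x ∈ K, -x ∈ K)
    (j : Fin n) : ∫ x, x j ^ 2 ∂(un K) ≤ 8 * C * (∫ x, |x j| ∂(un K)) ^ 2 := by
  have hp : IsProbabilityMeasure (un K) := un_prob h0 hcp.measure_lt_top.ne
  have hj : ∀ x : E n, ⟪x, EuclideanSpace.single j (1 : ℝ)⟫_ℝ = x j := fun x => by
    rw [EuclideanSpace.inner_single_right]
    simp
  have h1 := (H n (Pool.Agent.Y506.PV.ind K) (Pool.Agent.Y506.PV.adm_ind K hcp.measurableSet
    hcp.isBounded (pos_iff_ne_zero.2 h0)) (Pool.Agent.Y506.PV.lcn_ind hcv)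
    (EuclideanSpace.single j 1)).2
  rw [Pool.Agent.R754.KG.VW_ind hcp.measurableSet, Pool.Agent.R754.KG.EW_ind hcp.measurableSet,
    Pool.Agent.R754.KG.EW_ind hcp.measurableSet] at h1
  simp only [hj] at h1
  have hz : ∫ x : E n, x j ∂(un K) = 0 :=
    lin_zero hs (((EuclideanSpace.proj (𝕜 := ℝ) j : E n →L[ℝ] ℝ)) : E n →ₗ[ℝ] ℝ)
  rw [hz] at h1
  obtain ⟨V, hV⟩ : ∃ V : ℝ, V = ∫ x, x j ^ 2 ∂(un K) := ⟨_, rfl⟩
  obtain ⟨a, ha⟩ : ∃ a : ℝ, a = ∫ x, |x j| ∂(un K) := ⟨_, rfl⟩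
  have hV0 : 0 ≤ V := by rw [hV]; exact integral_nonneg fun x => sq_nonneg _
  have ha0 : 0 ≤ a := by rw [ha]; exact integral_nonneg fun x => abs_nonneg _
  rw [← hV, ← ha]
  rcases hV0.eq_or_lt with hV1 | hV1
  · rw [← hV1]
    positivity
  have h4 : ∫ x, x j ^ 4 ∂(un K) ≤ C * V ^ 2 := by
    have e1 : ∫ x, (x j - 0) ^ 4 ∂(un K) = ∫ x, x j ^ 4 ∂(un K) := by
      simp only [sub_zero]
    rw [e1] at h1
    refine h1.trans (le_of_eq ?_)
    rw [hV]
    ring
  obtain ⟨l, hl⟩ : ∃ l : ℝ, l = Real.sqrt (2 * C * V) := ⟨_, rfl⟩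
  have hl0 : 0 < l := by
    rw [hl]
    exact Real.sqrt_pos.2 (by positivity)
  have hl2 : l ^ 2 = 2 * C * V := by
    rw [hl, Real.sq_sqrt (by positivity)]
  have h5 : V ≤ l * a + (C * V ^ 2) / l ^ 2 := by
    have i2 : Integrable (fun x : E n => |x j|) (un K) := un_int h0 hcp.isBounded (by fun_prop)
    have i4 : Integrable (fun x : E n => x j ^ 4) (un K) := un_int h0 hcp.isBounded (by fun_prop)
    calc V = ∫ x, x j ^ 2 ∂(un K) := hV
      _ ≤ ∫ x, (l * |x j| + x j ^ 4 / l ^ 2) ∂(un K) :=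
          integral_mono_ae (un_int (f := fun x : E n => x j ^ 2) h0 hcp.isBounded (by fun_prop))
            ((i2.const_mul l).add (i4.div_const _)) (Eventually.of_forall fun x => rh _ l hl0)
      _ = l * a + (∫ x, x j ^ 4 ∂(un K)) / l ^ 2 := by
          rw [integral_add (i2.const_mul l) (i4.div_const _), integral_const_mul,
            integral_div, ha]
      _ ≤ _ := by gcongr
  rw [hl2] at h5
  have h6 : C * V ^ 2 / (2 * C * V) = V / 2 := by field_simp
  rw [h6] at h5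
  have h7 : V / 2 ≤ l * a := by linarith
  have h8 : (V / 2) ^ 2 ≤ (l * a) ^ 2 := pow_le_pow_left₀ (by positivity) h7 2
  rw [mul_pow, hl2] at h8
  have h9 : V * V ≤ V * (8 * C * a ^ 2) := by nlinarith
  exact le_of_mul_le_mul_left h9 hV1

/-- a family of bodies with signed permutation symmetry -/
theorem sym_fd (hSYM : Pool.Agent.R751.MB.S_SYM) (hM4 : Pool.Agent.Y506.PV.S_M4) :
    ∃ A Q : ℝ, 0 < A ∧ 0 < Q ∧ ∀ (n : ℕ) (F : ℝ → Set (E n)), (∀ s, IsCompact (F s)) →
    (∀ s s' a b : ℝ, 0 ≤ a → 0 ≤ b → a + b = 1 → ∀ x ∈ F s, ∀ y ∈ F s',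
      a • x + b • y ∈ F (a * s + b * s')) →
    (∀ s, ∀ x ∈ F s, x ∈ F (-s)) → (∀ s, OS (F s)) → FD A Q F := by
  obtain ⟨A, hA, HA⟩ := hSYM
  obtain ⟨C, hC, HC⟩ := hM4
  refine ⟨A, 2560 * C, hA, by positivity, fun n F hcp hj he hos => ?_⟩
  have hcv : ∀ s, Convex ℝ (F s) := by
    intro s x hx y hy a b ha hb hab
    have h1 := hj s s a b ha hb hab x hx y hy
    rwa [← add_mul, hab, one_mul] at h1
  refine ⟨hcp, hj, he, fun s => os_neg (hos s), fun s hs => ?_, fun S s s' h1 h2 h3 h4 L => ?_⟩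
  · rcases Nat.eq_zero_or_pos n with hn | hn
    · subst hn
      have h1 : Pool.Agent.R751.MB.ind (F s) = fun _ => (1 : ℝ) := by
        have hne : (F s).Nonempty := nonempty_of_measure_ne_zero hs
        obtain ⟨x, hx⟩ := hne
        funext y
        unfold Pool.Agent.R751.MB.ind
        exact indicator_of_mem (by rwa [Subsingleton.elim y x]) _
      rw [h1]
      exact Pool.Agent.R751.MB.ap_zero hA.le
    · have hadm := Pool.Agent.Y506.PV.adm_ind (F s) (hcp s).measurableSet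
        (hcp s).isBounded (pos_iff_ne_zero.2 hs)
      refine HA n _ hn ⟨hadm.nonneg, hadm.int, hadm.pos, hadm.meas⟩
        (Pool.Agent.Y506.PV.lcn_ind (hcv s)) fun σ x y hxy => ?_
      unfold Pool.Agent.R751.MB.ind
      by_cases hx : x ∈ F s
      · rw [indicator_of_mem hx, indicator_of_mem (hos s σ x y hxy hx)]
      · have hy : y ∉ F s := by
          intro hy
          refine hx (hos s σ.symm y x (fun i => ?_) hy)
          rw [hxy, Equiv.apply_symm_apply]
        rw [indicator_of_notMem hx, indicator_of_notMem hy]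
  · rcases Nat.eq_zero_or_pos n with hn | hn
    · subst hn
      have h5 : ∀ x : E 0, L x = 0 := fun x => by rw [Subsingleton.elim x 0, map_zero]
      simp [h5]
    obtain ⟨j, -⟩ : ∃ j : Fin n, True := ⟨⟨0, hn⟩, trivial⟩
    obtain ⟨u, hu⟩ : ∃ u : E n, ∀ x, L x = ⟪x, u⟫_ℝ := by
      refine ⟨(InnerProductSpace.toDual ℝ (E n)).symm (LinearMap.toContinuousLinearMap L),
        fun x => ?_⟩
      rw [real_inner_comm, InnerProductSpace.toDual_symm_apply]
      rfl
    simp only [hu]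
    rw [os_mom (hos s) (hcp s).isBounded h4 j u]
    obtain ⟨a, ha⟩ : ∃ a : ℝ, a = ∫ x, |x j| ∂(un (F s)) := ⟨_, rfl⟩
    have ha0 : 0 ≤ a := by rw [ha]; exact integral_nonneg fun x => abs_nonneg _
    have hrev := rev hC HC (hcp s) (hcv s) h4 (os_neg (hos s)) j
    rw [← ha] at hrev
    rcases ha0.eq_or_lt with ha1 | ha1
    · have h5 : (∫ x, x j ^ 2 ∂(un (F s))) * ‖u‖ ^ 2 ≤ 0 := by
        refine mul_nonpos_of_nonpos_of_nonneg ?_ (by positivity)
        rw [← ha1] at hrev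
        linarith
      refine h5.trans (mul_nonneg (by positivity) (integral_nonneg fun x => sq_nonneg _))
    have hcub : cub n a ⊆ F s := by
      intro x hx
      refine os_cube (hos s) (hcv s) (hcp s) h4 j x fun i => ?_
      rw [← ha]
      exact hx i
    have hcub0 : cub n a ⊆ F 0 := by
      intro x hx
      have h5 := hj s (-s) (1 / 2) (1 / 2) (by norm_num) (by norm_num) (by norm_num) x (hcub hx)
        x (he s x (hcub hx))
      rw [← add_smul] at h5
      norm_num at h5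
      exact h5
    have hcub' : cub n (a / 2) ⊆ F s' := by
      intro y hy
      have h0S : (0 : E n) ∈ F S := by
        obtain ⟨z, hz⟩ := h3
        have h5 := hcv S hz (os_neg (hos S) z hz) (by norm_num : (0 : ℝ) ≤ 1 / 2)
          (by norm_num : (0 : ℝ) ≤ 1 / 2) (by norm_num)
        rwa [smul_neg, add_neg_cancel] at h5
      have hS0 : 0 ≤ S := (abs_nonneg s).trans h1
      obtain ⟨τ, hτ0, hτ1, S', hS', hτ⟩ : ∃ τ : ℝ, 0 ≤ τ ∧ τ ≤ 1 / 2 ∧ ∃ S' : ℝ,
          (0 : E n) ∈ F S' ∧ τ * S' = s' := by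
        rcases hS0.eq_or_lt with h5 | h5
        · refine ⟨0, le_rfl, by norm_num, S, h0S, ?_⟩
          rw [← h5] at h2
          have h6 : |s'| ≤ 0 := by linarith
          rw [abs_nonpos_iff.1 h6, zero_mul]
        · have h6 : (0 : E n) ∈ F (-S) := he S 0 h0S
          rcases le_total 0 s' with h7 | h7
          · rw [abs_of_nonneg h7] at h2
            refine ⟨s' / S, by positivity, ?_, S, h0S, by field_simp⟩
            rw [div_le_iff₀ h5]
            linarith
          · rw [abs_of_nonpos h7] at h2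
            refine ⟨-s' / S, div_nonneg (by linarith) h5.le, ?_, -S, h6, by field_simp⟩
            rw [div_le_iff₀ h5]
            linarith
      have hx : (1 - τ)⁻¹ • y ∈ F 0 := by
        refine hcub0 fun i => ?_
        show |(1 - τ)⁻¹ * y i| ≤ a
        have h5 : 0 < 1 - τ := by linarith
        rw [abs_mul, abs_of_pos (inv_pos.2 h5), inv_mul_le_iff₀ h5]
        have h6 : |y i| ≤ a / 2 := hy i
        nlinarith
      have h5 := hj 0 S' (1 - τ) τ (by linarith) hτ0 (by ring) _ hx 0 hS'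
      rw [smul_smul, mul_inv_cancel₀ (by linarith : (1 - τ) ≠ 0), one_smul, smul_zero, add_zero,
        mul_zero, zero_add, hτ] at h5
      exact h5
    obtain ⟨h5, h6⟩ := cub_mom hn (hcp s') (half_pos ha1) hcub'
    rw [os_mom (hos s') (hcp s').isBounded h5 j u]
    have h7 : ∫ x, ‖x‖ ^ 2 ∂(un (F s')) = n * ∫ x, x j ^ 2 ∂(un (F s')) := by
      have e1 : ∀ x : E n, ‖x‖ ^ 2 = ∑ i, x i ^ 2 := fun x => by
        rw [EuclideanSpace.norm_sq_eq]
        simp
      simp only [e1]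
      rw [integral_finsetSum _ fun i _ => un_int (f := fun x : E n => x i ^ 2) h5
        (hcp s').isBounded (by fun_prop)]
      rw [Finset.sum_congr rfl fun i _ => os_sq (hos s') i j (fun t => t ^ 2) (by fun_prop)]
      rw [Finset.sum_const, Finset.card_univ, Fintype.card_fin, nsmul_eq_mul]
    rw [h7] at h6
    have hn' : (0 : ℝ) < n := by exact_mod_cast hn
    have h8 : a ^ 2 / 320 ≤ ∫ x, x j ^ 2 ∂(un (F s')) := by
      have h9 : (n : ℝ) * (a ^ 2 / 320) ≤ n * ∫ x, x j ^ 2 ∂(un (F s')) := by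
        refine le_trans (le_of_eq ?_) h6
        ring
      exact le_of_mul_le_mul_left h9 hn'
    calc (∫ x, x j ^ 2 ∂(un (F s))) * ‖u‖ ^ 2 ≤ (8 * C * a ^ 2) * ‖u‖ ^ 2 :=
          mul_le_mul_of_nonneg_right hrev (by positivity)
      _ = 2560 * C * ((a ^ 2 / 320) * ‖u‖ ^ 2) := by ring
      _ ≤ 2560 * C * ((∫ x, x j ^ 2 ∂(un (F s'))) * ‖u‖ ^ 2) := by gcongr

end Pool.Agent.W5h33.KL
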