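import Pool.Agent.W5h33.KL.Iso
import Pool.Agent.R755.KS.KS9
import Pool.Agent.R751.MB.Ten

/-!
# Marginals of convex bodies: from concentration to weak Poincaré inequalities

The marginal of a convex body `K ⊂ ℝ^N × ℝ^M` on `ℝ^M` is the limit of the uniform measures on the
bodies `{(ε x, t) | (x, t) ∈ K}`.
-/

set_option autoImplicit false

namespace Pool.Agent.W5h33.KL

open MeasureTheory Set Filter Topology
open scoped ENNReal InnerProductSpace
open Pool.Agent.R754.KG (E un sl Rv un_prob un_int)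
open Pool.Agent.W695.KH (Eu EV VV Sm)
open Pool.Agent.R755.KF (CB)
open Pool.Agent.R755.KS (KM bl int_cont bl_prob bl_bdd)
open Pool.Agent.R755.KS.KS9aux
open Pool.Agent.Y506.PV (CcW)
open Pool.Agent.Y506.RG (EW VW Adm)

variable {N M : ℕ}

/-- integrals with respect to the marginal -/
theorem bl_int {K : Set (E N × E M)} (h : CB K) (f : E M → ℝ) :
    ∫ t, f t ∂(bl K) = EW (Rv K) f := by
  have hV0 : 0 < (volume K).toReal := ENNReal.toReal_pos h.pos.ne' (kfin h)
  have hm : Measurable fun t => Rv K t / (volume K).toReal := (R_meas h).div_const _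
  have hnn : ∀ t, 0 ≤ Rv K t / (volume K).toReal := fun t =>
    div_nonneg (Pool.Agent.R754.KG.R_nonneg t) hV0.le
  have h1 : ∀ f : E M → ℝ, ∫ t, f t ∂(bl K) = (∫ t, f t * Rv K t) / (volume K).toReal := by
    intro f
    rw [bl_eq h, integral_withDensity_eq_integral_toReal_smul hm.ennreal_ofReal
      (Eventually.of_forall fun t => ENNReal.ofReal_lt_top), ← integral_div]
    refine integral_congr_ae (Eventually.of_forall fun t => ?_)
    simp only [smul_eq_mul]
    rw [ENNReal.toReal_ofReal (hnn t)]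
    ring
  have h2 := h1 fun _ => 1
  have hp := bl_prob h
  rw [integral_const, probReal_univ, smul_eq_mul, mul_one] at h2
  simp only [one_mul] at h2
  have h3 : ∫ t, Rv K t = (volume K).toReal := by
    field_simp at h2
    linarith
  rw [h1]
  unfold EW
  rw [h3]

/-- the density of the marginal is an admissible weight -/
theorem bl_adm {K : Set (E N × E M)} (h : CB K) : Adm (Rv K) := by
  have hV0 : 0 < (volume K).toReal := ENNReal.toReal_pos h.pos.ne' (kfin h)
  obtain ⟨R, hR⟩ : ∃ R : ℝ, ∀ z ∈ K, ‖z‖ ≤ R := h.comp.isBounded.exists_norm_le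
  have hfinV : ∫⁻ t, volume (sl K t) = volume K := by
    have := fub h (fun _ => 1) measurable_const
    simp only [lintegral_const, one_mul, Measure.restrict_apply_univ] at this
    exact this.symm
  have hint : Integrable (Rv K) := by
    refine ⟨(R_meas h).aestronglyMeasurable, ?_⟩
    rw [hasFiniteIntegral_iff_ofReal (Eventually.of_forall fun t =>
      Pool.Agent.R754.KG.R_nonneg t)]
    have : ∫⁻ t, ENNReal.ofReal (Rv K t) = volume K := by
      rw [← hfinV]
      exact lintegral_congr fun t => (R_vol h t).symm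
    rw [this]
    exact lt_top_iff_ne_top.2 (kfin h)
  refine ⟨fun t => Pool.Agent.R754.KG.R_nonneg t, ?_, ?_, R_meas h⟩
  · refine Integrable.mono' (hint.const_mul (1 + R ^ 2))
      ((((measurable_norm.pow_const 2).const_add 1).mul (R_meas h)).aestronglyMeasurable)
      (Eventually.of_forall fun t => ?_)
    rw [Real.norm_eq_abs, abs_of_nonneg (mul_nonneg (by positivity)
      (Pool.Agent.R754.KG.R_nonneg t))]
    rcases (Pool.Agent.R754.KG.R_nonneg (K := K) t).eq_or_lt with h0 | h0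
    · rw [← h0]; simp
    · have hne : (sl K t).Nonempty := by
        by_contra hc
        rw [not_nonempty_iff_eq_empty] at hc
        unfold Rv at h0
        rw [hc] at h0
        simp at h0
      obtain ⟨x, hx⟩ := hne
      have h1 : ‖t‖ ≤ R := (norm_snd_le (x, t)).trans (hR (x, t) hx)
      have h2 : ‖t‖ ^ 2 ≤ R ^ 2 := pow_le_pow_left₀ (norm_nonneg _) h1 2
      exact mul_le_mul_of_nonneg_right (by linarith) h0.le
  · have h3 := bl_int h (fun _ => 1)
    have hp := bl_prob h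
    rw [integral_const, probReal_univ, smul_eq_mul, mul_one] at h3
    unfold EW at h3
    have h4 : 0 ≤ ∫ t, Rv K t := integral_nonneg fun t => Pool.Agent.R754.KG.R_nonneg t
    rcases h4.eq_or_lt with h5 | h5
    · rw [← h5, div_zero] at h3
      exact absurd h3 one_ne_zero
    · exact h5

/-- functions which are near to each other have nearly the same variance -/
theorem var_near {Ω : Type} [MeasurableSpace Ω] (ν : Measure Ω) [IsProbabilityMeasure ν]
    (a b : Ω → ℝ) (ha : Measurable a) (hb : Measurable b) (ha1 : ∀ x, |a x| ≤ 1)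
    (hb1 : ∀ x, |b x| ≤ 1) (η : ℝ) (hη : 0 ≤ η) (h : ∀ᵐ x ∂ν, |a x - b x| ≤ η) :
    (∫ x, a x ^ 2 ∂ν) - (∫ x, a x ∂ν) ^ 2 ≤ (∫ x, b x ^ 2 ∂ν) - (∫ x, b x ∂ν) ^ 2 + 4 * η := by
  have ia : Integrable a ν := Integrable.of_bound ha.aestronglyMeasurable 1
    (Eventually.of_forall fun x => by rw [Real.norm_eq_abs]; exact ha1 x)
  have ib : Integrable b ν := Integrable.of_bound hb.aestronglyMeasurable 1
    (Eventually.of_forall fun x => by rw [Real.norm_eq_abs]; exact hb1 x)
  have ia2 : Integrable (fun x => a x ^ 2) ν :=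
    Integrable.of_bound (ha.pow_const 2).aestronglyMeasurable 1
    (Eventually.of_forall fun x => by
      rw [Real.norm_eq_abs, abs_pow]; exact pow_le_one₀ (abs_nonneg _) (ha1 x))
  have ib2 : Integrable (fun x => b x ^ 2) ν :=
    Integrable.of_bound (hb.pow_const 2).aestronglyMeasurable 1
    (Eventually.of_forall fun x => by
      rw [Real.norm_eq_abs, abs_pow]; exact pow_le_one₀ (abs_nonneg _) (hb1 x))
  have h1 : ∫ x, a x ^ 2 ∂ν ≤ (∫ x, b x ^ 2 ∂ν) + 2 * η := by
    have h2 : ∫ x, (b x ^ 2 + 2 * η) ∂ν = (∫ x, b x ^ 2 ∂ν) + 2 * η := by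
      rw [integral_add ib2 (integrable_const _)]; simp
    rw [← h2]
    refine integral_mono_ae ia2 (ib2.add (integrable_const _)) ?_
    filter_upwards [h] with x hx
    show a x ^ 2 ≤ b x ^ 2 + 2 * η
    have h3 := abs_le.1 (ha1 x)
    have h4 := abs_le.1 (hb1 x)
    have h5 : |a x + b x| ≤ 2 := abs_le.2 ⟨by linarith, by linarith⟩
    have h6 : |(a x - b x) * (a x + b x)| ≤ η * 2 := by
      rw [abs_mul]
      exact mul_le_mul hx h5 (abs_nonneg _) hη
    have h7 := (abs_le.1 h6).2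
    nlinarith
  have h2 : |(∫ x, a x ∂ν) - ∫ x, b x ∂ν| ≤ η := by
    rw [← integral_sub ia ib]
    have h3 := norm_integral_le_of_norm_le_const (μ := ν) (f := fun x => a x - b x) (C := η)
      (by filter_upwards [h] with x hx; rwa [Real.norm_eq_abs])
    rw [Real.norm_eq_abs, probReal_univ, mul_one] at h3
    exact h3
  have bd : ∀ f : Ω → ℝ, (∀ x, |f x| ≤ 1) → |∫ x, f x ∂ν| ≤ 1 := by
    intro f hf
    have h3 := norm_integral_le_of_norm_le_const (μ := ν) (f := f) (C := 1)
      (Eventually.of_forall fun x => by rw [Real.norm_eq_abs]; exact hf x)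
    rw [Real.norm_eq_abs, probReal_univ, mul_one] at h3
    exact h3
  have h3 := abs_le.1 (bd a ha1)
  have h4 := abs_le.1 (bd b hb1)
  have h5 : |(∫ x, a x ∂ν) + ∫ x, b x ∂ν| ≤ 2 := abs_le.2 ⟨by linarith, by linarith⟩
  have h6 : |((∫ x, a x ∂ν) - ∫ x, b x ∂ν) * ((∫ x, a x ∂ν) + ∫ x, b x ∂ν)| ≤ η * 2 := by
    rw [abs_mul]
    exact mul_le_mul h2 h5 (abs_nonneg _) hη
  have h7 := (abs_le.1 h6).1
  nlinarith

/-- concentration for the marginal gives a weak Poincaré inequality for the marginal -/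
theorem km_marg : ∀ κ δ : ℝ, 0 < κ → 0 < δ → ∃ A0 : ℝ, 0 < A0 ∧
    ∀ (N M : ℕ) (K : Set (E N × E M)), CB K → CcW κ δ (Rv K) → KM A0 (17 * (2 * δ)) (bl K) := by
  intro κ δ hκ hδ
  refine ⟨4 / (κ ^ 2 * (2 * δ)), by positivity, fun N M K hK hcc => ?_⟩
  have hA := bl_adm hK
  obtain ⟨A, hiA⟩ := Pool.Agent.Y211.PV.iso M (Rv K) hA
  have hp := bl_prob hK
  obtain ⟨B, hB⟩ := bl_bdd hK
  have hpu : IsProbabilityMeasure (un K) := un_prob hK.pos.ne' (kfin hK)
  have hblu : ∀ f : E M → ℝ, Continuous f → ∫ t, f t ∂(bl K) = ∫ z, f z.2 ∂(un K) := by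
    intro f hf
    unfold bl
    rw [integral_map measurable_snd.aemeasurable hf.aestronglyMeasurable]
  obtain ⟨R, hR⟩ : ∃ R : ℝ, ∀ z ∈ K, ‖z‖ ≤ R := hK.comp.isBounded.exists_norm_le
  have hR0 : 0 ≤ max R 0 := le_max_right _ _
  have hRz : ∀ᵐ z ∂(un K), ‖z‖ ≤ max R 0 := by
    unfold un
    apply Measure.ae_smul_measure
    rw [ae_restrict_iff' (meas hK)]
    exact Eventually.of_forall fun z hz => (hR z hz).trans (le_max_left _ _)
  -- the isometry
  let e0 : (E N × E M) ≃ₗ[ℝ] E (N + M) := LinearEquiv.ofFinrankEq _ _ (by simp)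
  obtain ⟨j⟩ := Pool.Agent.R751.MB.Ten.exists_j e0
  -- the squeezed body
  obtain ⟨ε, hε, hε2⟩ : ∃ ε : ℝ, 0 < ε ∧ 4 * (κ * (ε * max R 0)) ≤ δ := by
    refine ⟨δ / (4 * κ * (max R 0 + 1)), by positivity, ?_⟩
    have : 4 * (κ * (δ / (4 * κ * (max R 0 + 1)) * max R 0)) = δ * (max R 0 / (max R 0 + 1)) := by
      field_simp
    rw [this]
    have h1 : max R 0 / (max R 0 + 1) ≤ 1 := by
      rw [div_le_one (by positivity)]; linarith
    nlinarith
  let sc : E N ≃ₗ[ℝ] E N := LinearEquiv.smulOfNeZero ℝ (E N) ε hε.ne'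
  let T : (E N × E M) ≃ₗ[ℝ] E (N + M) :=
    (LinearEquiv.prodCongr sc A.toLinearEquiv).trans (Pool.Agent.R751.MB.Ten.JJ j).toLinearEquiv
  have hT : ∀ x t, T (x, t) = Pool.Agent.R751.MB.Ten.JJ j (ε • x, A t) := fun x t => rfl
  have hTc : Continuous T := T.toLinearMap.continuous_of_finiteDimensional
  obtain ⟨D, hD⟩ : ∃ D : Set (E (N + M)), D = T '' K := ⟨_, rfl⟩
  have hDc : IsCompact D := by rw [hD]; exact hK.comp.image hTc
  have hDv : Convex ℝ D := by rw [hD]; exact hK.conv.linear_image T.toLinearMap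
  have hunD : un D = Measure.map T (un K) := by
    rw [hD]; exact Pool.Agent.R755.KS.un_map T hK.pos.ne' (kfin hK)
  have hTm : Measurable T := hTc.measurable
  have hpD : IsProbabilityMeasure (un D) := by
    rw [hunD]
    exact Measure.isProbabilityMeasure_map hTm.aemeasurable
  have hDpos : 0 < volume D := by
    rw [pos_iff_ne_zero]
    intro h0
    have h1 : (un D) univ = 0 := by
      unfold un
      rw [Measure.restrict_eq_zero.2 h0, smul_zero]
      rfl
    rw [measure_univ] at h1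
    exact one_ne_zero h1
  have hDint : ∀ f : E (N + M) → ℝ, Continuous f → ∫ y, f y ∂(un D) = ∫ z, f (T z) ∂(un K) := by
    intro f hf
    rw [hunD, integral_map hTm.aemeasurable hf.aestronglyMeasurable]
  -- the isometric embedding of the base and the projection
  obtain ⟨ι, hι⟩ : ∃ ι : E M →L[ℝ] E (N + M), ∀ y, ι y = Pool.Agent.R751.MB.Ten.JJ j (0, y) :=
    ⟨(Pool.Agent.R751.MB.Ten.JJ j : (E N × E M) →L[ℝ] E (N + M)).comp
      (ContinuousLinearMap.inr ℝ _ _), fun y => rfl⟩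
  have hιn : ‖ι‖ ≤ 1 := by
    refine ContinuousLinearMap.opNorm_le_bound _ zero_le_one fun y => ?_
    rw [hι, Pool.Agent.R751.MB.Ten.JJ_apply, j.norm_map, one_mul]
    have h1 := WithLp.prod_norm_sq_eq_of_L2 (WithLp.toLp 2 ((0 : E N), y))
    have h2 : ‖(WithLp.toLp 2 ((0 : E N), y)).fst‖ = 0 := by
      show ‖(0 : E N)‖ = 0
      simp
    have h3 : ‖(WithLp.toLp 2 ((0 : E N), y)).snd‖ = ‖y‖ := rfl
    rw [h2, h3] at h1
    have h4 : ‖WithLp.toLp 2 ((0 : E N), y)‖ ^ 2 = ‖y‖ ^ 2 := by rw [h1]; ring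
    exact (abs_le_of_sq_le_sq' h4.le (norm_nonneg _)).2
  obtain ⟨π, hπ⟩ : ∃ π : E (N + M) →L[ℝ] E M, ∀ w, π w = ((Pool.Agent.R751.MB.Ten.JJ j).symm w).2 :=
    ⟨(ContinuousLinearMap.snd ℝ (E N) (E M)).comp
      ((Pool.Agent.R751.MB.Ten.JJ j).symm : E (N + M) →L[ℝ] (E N × E M)), fun w => rfl⟩
  have hπn : ‖π‖ ≤ 1 := by
    refine ContinuousLinearMap.opNorm_le_bound _ zero_le_one fun w => ?_
    rw [hπ, one_mul]
    have h1 := Pool.Agent.R751.MB.Ten.norm_symm j w
    have h2 : ((Pool.Agent.R751.MB.Ten.JJ j).symm w).2 = (j.symm w).snd := rfl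
    rw [h2]
    have h3 : ‖(j.symm w).snd‖ ^ 2 ≤ ‖w‖ ^ 2 := by
      have := sq_nonneg ‖(j.symm w).fst‖
      linarith
    exact (abs_le_of_sq_le_sq' h3 (norm_nonneg _)).2
  have hπT : ∀ z : E N × E M, π (T z) = A z.2 := by
    intro z
    obtain ⟨x, t⟩ := z
    rw [hπ, hT, ContinuousLinearEquiv.symm_apply_apply]
  -- concentration for the squeezed body
  have hl : Pool.Agent.Y506.FF.LCon D κ (2 * δ) := by
    intro v hv hv1 hvl
    have hvc := hv.continuous
    have h0 : VV D v = (∫ y, v y ^ 2 ∂(un D)) - (∫ y, v y ∂(un D)) ^ 2 := by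
      unfold VV
      rw [← Pool.Agent.R755.KF.W1aux.int_un, ← Pool.Agent.R755.KF.W1aux.int_un]
    rw [h0, hDint (fun y => v y ^ 2) (hvc.pow 2), hDint v hvc]
    have hnear : ∀ᵐ z ∂(un K), |v (T z) - v (ι (A z.2))| ≤ κ * (ε * max R 0) := by
      filter_upwards [hRz] with z hz
      obtain ⟨x, t⟩ := z
      have h1 := Convex.norm_image_sub_le_of_norm_fderiv_le (𝕜 := ℝ) (f := v) (C := κ)
        (s := Set.univ) (fun y _ => (hv.differentiable one_ne_zero) y) (fun y _ => hvl y)
        convex_univ (Set.mem_univ (ι (A t))) (Set.mem_univ (T (x, t)))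
      rw [Real.norm_eq_abs] at h1
      refine h1.trans (mul_le_mul_of_nonneg_left ?_ hκ.le)
      have h2 : T (x, t) - ι (A t) = Pool.Agent.R751.MB.Ten.JJ j (ε • x, 0) := by
        rw [hT, hι, ← map_sub]
        congr 1
        ext1 <;> simp
      rw [h2, Pool.Agent.R751.MB.Ten.JJ_apply, j.norm_map]
      have h3 := WithLp.prod_norm_sq_eq_of_L2 (WithLp.toLp 2 (ε • x, (0 : E M)))
      have h4 : ‖(WithLp.toLp 2 (ε • x, (0 : E M))).fst‖ = ε * ‖x‖ := by
        show ‖ε • x‖ = _
        rw [norm_smul, Real.norm_eq_abs, abs_of_pos hε]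
      have h5 : ‖(WithLp.toLp 2 (ε • x, (0 : E M))).snd‖ = 0 := by
        show ‖(0 : E M)‖ = 0
        simp
      rw [h4, h5] at h3
      have h6 : ‖WithLp.toLp 2 (ε • x, (0 : E M))‖ ^ 2 ≤ (ε * ‖x‖) ^ 2 := by
        rw [h3]; ring_nf; exact le_rfl
      have h7 := (abs_le_of_sq_le_sq' h6 (by positivity)).2
      refine h7.trans (mul_le_mul_of_nonneg_left ?_ hε.le)
      exact (norm_fst_le (x, t)).trans hz
    have hιc : Continuous ι := ι.continuous
    have hm1 : Measurable fun z => v (T z) := hvc.measurable.comp hTm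
    have hm2 : Measurable fun z : E N × E M => v (ι (A z.2)) :=
      (hvc.comp (hιc.comp (A.continuous.comp continuous_snd))).measurable
    have h1 := var_near (un K) (fun z => v (T z)) (fun z => v (ι (A z.2))) hm1 hm2
      (fun z => hv1 _) (fun z => hv1 _) (κ * (ε * max R 0)) (by positivity) hnear
    -- the variance in the base
    have hu : ContDiff ℝ 1 fun y => v (ι y) := hv.comp ι.contDiff
    have hud : ∀ y, ‖fderiv ℝ (fun y => v (ι y)) y‖ ≤ κ := by
      intro y
      have h2 : HasFDerivAt v (fderiv ℝ v (ι y)) (ι y) :=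
        ((hv.differentiable one_ne_zero) (ι y)).hasFDerivAt
      have h3 : fderiv ℝ (fun y => v (ι y)) y = (fderiv ℝ v (ι y)).comp ι :=
        (h2.comp y ι.hasFDerivAt).fderiv
      rw [h3]
      refine (ContinuousLinearMap.opNorm_comp_le _ _).trans ?_
      calc ‖fderiv ℝ v (ι y)‖ * ‖ι‖ ≤ κ * 1 :=
            mul_le_mul (hvl _) hιn (norm_nonneg _) hκ.le
        _ = κ := mul_one _
    have h2 := hcc M le_rfl A.toLinearEquiv.toLinearMap 1 one_pos (by
        intro θ hθ
        have h1 := hiA θ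
        rw [hθ] at h1
        have h2 : VW (Rv K) (fun x => ⟪A.toLinearEquiv.toLinearMap x, θ⟫_ℝ) =
          VW (Rv K) (fun x => ⟪A x, θ⟫_ℝ) := rfl
        rw [h2, h1]
        norm_num) (fun y => v (ι y)) hu (fun y => hv1 _) (by
        intro y
        rw [Real.sqrt_one, div_one]
        exact hud y)
    have h3 : VW (Rv K) (fun x => v (ι (A.toLinearEquiv.toLinearMap x))) =
        (∫ z, v (ι (A z.2)) ^ 2 ∂(un K)) - (∫ z, v (ι (A z.2)) ∂(un K)) ^ 2 := by
      unfold VW
      rw [← bl_int hK, ← bl_int hK, hblu (fun x => v (ι (A.toLinearEquiv.toLinearMap x)) ^ 2)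
        ((hvc.comp (hιc.comp A.continuous)).pow 2),
        hblu (fun x => v (ι (A.toLinearEquiv.toLinearMap x))) (hvc.comp (hιc.comp A.continuous))]
      rfl
    rw [h3] at h2
    linarith
  -- the inequality in isotropic position
  refine km_of_iso hB (by positivity) A.toLinearEquiv (fun θ => ?_) (fun f L L' hf => ?_)
  · have h1 := hiA θ
    unfold VW at h1
    rw [← bl_int hK, ← bl_int hK] at h1
    exact h1
  · have hL0 : 0 ≤ L := (norm_nonneg _).trans (hf.grad 0)
    have hfc := hf.diff.continuous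
    have hfd : ∀ w, fderiv ℝ (fun w => f (π w)) w = (fderiv ℝ f (π w)).comp π := by
      intro w
      have h2 : HasFDerivAt f (fderiv ℝ f (π w)) (π w) :=
        ((hf.diff.differentiable one_ne_zero) (π w)).hasFDerivAt
      exact (h2.comp w π.hasFDerivAt).fderiv
    have hsm : Sm (fun w => f (π w)) L |L'| := by
      refine ⟨fun w => hf.bdd _, hf.diff.comp π.contDiff, fun w => ?_, fun w w' => ?_⟩
      · rw [hfd]
        refine (ContinuousLinearMap.opNorm_comp_le _ _).trans ?_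
        calc ‖fderiv ℝ f (π w)‖ * ‖π‖ ≤ L * 1 := mul_le_mul (hf.grad _) hπn (norm_nonneg _) hL0
          _ = L := mul_one _
      · rw [hfd, hfd, ← ContinuousLinearMap.sub_comp]
        refine (ContinuousLinearMap.opNorm_comp_le _ _).trans ?_
        have h1 := hf.lip (π w) (π w')
        have h2 : ‖π w - π w'‖ ≤ ‖w - w'‖ := by
          rw [← map_sub]
          refine (π.le_opNorm _).trans ?_
          calc ‖π‖ * ‖w - w'‖ ≤ 1 * ‖w - w'‖ := mul_le_mul_of_nonneg_right hπn (norm_nonneg _)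
            _ = _ := one_mul _
        calc ‖fderiv ℝ f (π w) - fderiv ℝ f (π w')‖ * ‖π‖
            ≤ (|L'| * ‖w - w'‖) * 1 := by
              refine mul_le_mul ?_ hπn (norm_nonneg _) (by positivity)
              refine h1.trans ?_
              refine (mul_le_mul_of_nonneg_right (le_abs_self L') (norm_nonneg _)).trans ?_
              exact mul_le_mul_of_nonneg_left h2 (abs_nonneg _)
          _ = _ := mul_one _
    have h1 := Pool.Agent.R755.KF.W1aux.weak_of_lcon hDc hDv hDpos (by positivity : 0 < 2 * δ) hκ hl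
      (fun w => f (π w)) L |L'| hsm
    have h0 : VV D (fun w => f (π w)) = (∫ y, f (π y) ^ 2 ∂(un D)) - (∫ y, f (π y) ∂(un D)) ^ 2 := by
      unfold VV
      rw [← Pool.Agent.R755.KF.W1aux.int_un, ← Pool.Agent.R755.KF.W1aux.int_un]
    have hfπ : Continuous fun y => f (π y) := hfc.comp π.continuous
    have hdc : Continuous fun x => ‖fderiv ℝ (fun w => f (π w)) x‖ ^ 2 :=
      (((hf.diff.comp π.contDiff).continuous_fderiv one_ne_zero).norm).pow 2
    rw [h0, ← Pool.Agent.R755.KF.W1aux.int_un, hDint (fun y => f (π y) ^ 2) (hfπ.pow 2),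
      hDint (fun y => f (π y)) hfπ, hDint _ hdc] at h1
    simp only [hπT] at h1
    have h2 : ∫ z, ‖fderiv ℝ (fun w => f (π w)) (T z)‖ ^ 2 ∂(un K) ≤
        ∫ z, ‖fderiv ℝ f (A z.2)‖ ^ 2 ∂(un K) := by
      have hc1 : Continuous fun z : E N × E M => ‖fderiv ℝ f (A z.2)‖ ^ 2 :=
        ((hf.diff.continuous_fderiv one_ne_zero).comp (A.continuous.comp continuous_snd)).norm.pow 2
      refine integral_mono (un_int hK.pos.ne' hK.comp.isBounded (hdc.comp hTc))
        (un_int hK.pos.ne' hK.comp.isBounded hc1) fun z => ?_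
      show ‖fderiv ℝ (fun w => f (π w)) (T z)‖ ^ 2 ≤ ‖fderiv ℝ f (A z.2)‖ ^ 2
      rw [hfd, hπT]
      refine pow_le_pow_left₀ (norm_nonneg _) ?_ 2
      refine (ContinuousLinearMap.opNorm_comp_le _ _).trans ?_
      calc ‖fderiv ℝ f (A z.2)‖ * ‖π‖ ≤ ‖fderiv ℝ f (A z.2)‖ * 1 :=
            mul_le_mul_of_nonneg_left hπn (norm_nonneg _)
        _ = _ := mul_one _
    have e1 : ∫ x, f (A.toLinearEquiv x) ^ 2 ∂(bl K) = ∫ z, f (A z.2) ^ 2 ∂(un K) :=
      hblu (fun x => f (A x) ^ 2) ((hfc.comp A.continuous).pow 2)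
    have e2 : ∫ x, f (A.toLinearEquiv x) ∂(bl K) = ∫ z, f (A z.2) ∂(un K) :=
      hblu (fun x => f (A x)) (hfc.comp A.continuous)
    have e3 : ∫ x, ‖fderiv ℝ f (A.toLinearEquiv x)‖ ^ 2 ∂(bl K) =
        ∫ z, ‖fderiv ℝ f (A z.2)‖ ^ 2 ∂(un K) :=
      hblu (fun x => ‖fderiv ℝ f (A x)‖ ^ 2)
        (((hf.diff.continuous_fderiv one_ne_zero).comp A.continuous).norm.pow 2)
    rw [e1, e2, e3]
    have h3 := mul_le_mul_of_nonneg_left h2 (by positivity : 0 ≤ 4 / (κ ^ 2 * (2 * δ)))
    linarith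

end Pool.Agent.W5h33.KL
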