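import Pool.Agent.W5h33.KL.Fam
import Pool.Agent.W5h33.KL.Mg
import Pool.Agent.R755.KS.Mrg
import Pool.Agent.Y506.PV.Fin

/-!
# Bodies fibred over few ridge functions: the marginal
-/

set_option autoImplicit false

namespace Pool.Agent.W5h33.KL

open MeasureTheory Set Filter Topology
open scoped ENNReal InnerProductSpace Pointwise
open Pool.Agent.R754.KG (E un sl Rv un_prob un_int)
open Pool.Agent.R755.KF (CB)
open Pool.Agent.R755.KS (KM bl int_cont bl_prob bl_bdd)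
open Pool.Agent.R755.KS.KS9aux
open Pool.Agent.R751.MB (AP Body)
open Pool.Agent.Y506.PV (CcW ind ellv)
open Pool.Agent.Y506.RG (EW VW Adm LC1)

theorem ew_smul {n : ℕ} {C : ℝ} (hC : C ≠ 0) (w f : E n → ℝ) :
    EW (fun x => C * w x) f = EW w f := by
  unfold EW
  have h1 : ∫ x, f x * (C * w x) = C * ∫ x, f x * w x := by
    rw [← integral_const_mul]
    refine integral_congr_ae (Eventually.of_forall fun x => ?_)
    simp only
    ring
  rw [h1, integral_const_mul, mul_div_mul_left _ _ hC]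

theorem ccw_smul {n : ℕ} {C κ δ : ℝ} (hC : C ≠ 0) {w : E n → ℝ} (h : CcW κ δ w) :
    CcW κ δ fun x => C * w x := by
  intro k hk T s hs hT f hf hf1 hfd
  have e : ∀ u : E n → ℝ, VW (fun x => C * w x) u = VW w u := by
    intro u
    unfold VW
    rw [ew_smul hC, ew_smul hC]
  rw [e]
  exact h k hk T s hs (fun θ hθ => by
    have := hT θ hθ
    rwa [e] at this) f hf hf1 hfd

/-- the volume of the fibre, as a function on the line -/
noncomputable def hv {n : ℕ} (F : ℝ → Set (E n)) (s : ℝ) : ℝ := (volume (F s)).toReal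

/-- concentration for the marginal -/
theorem cc_marg (q : ℕ) (δ : ℝ) (hδ : 0 < δ) : ∃ κ : ℝ, 0 < κ ∧
    ∀ (N m D : ℕ) (k : Fin N → ℕ) (A Q : ℝ) (v : Fin N → E m) (F : ∀ i, ℝ → Set (E (k i)))
    (φ : (∀ i, E (k i)) ≃ₗ[ℝ] E D), 1 ≤ m →
    N ≤ m + q → (∀ i, FD A Q (F i)) → CB (rk φ v F) → CcW κ δ (Rv (rk φ v F)) := by
  obtain ⟨κ, hκ, H⟩ := Pool.Agent.Y506.PV.ccl q δ hδ
  refine ⟨κ, hκ, fun N m D k A Q v F φ hm hN h hK => ?_⟩
  obtain ⟨C, hC, hR⟩ := rv_eq (v := v) (F := F) φ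
  have hadm := bl_adm hK
  have hRf : Rv (rk φ v F) = fun t => C * ∏ i, hv (F i) (ellv v t i) := by
    funext t
    exact hR t
  have hwf : (fun t => ∏ i, hv (F i) (ellv v t i)) =
      fun t => C⁻¹ * Rv (rk φ v F) t := by
    funext t
    rw [hR t, ← mul_assoc, inv_mul_cancel₀ hC.ne', one_mul]
    rfl
  have hker : ∀ x, ellv v x = 0 → x = 0 := by
    intro x hx
    have hne : (rk φ v F).Nonempty := by
      by_contra hc
      rw [not_nonempty_iff_eq_empty] at hc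
      have := hK.pos
      rw [hc, measure_empty] at this
      exact lt_irrefl _ this
    obtain ⟨z, hz⟩ := hne
    obtain ⟨R, hR⟩ : ∃ R : ℝ, ∀ z ∈ rk φ v F, ‖z‖ ≤ R := hK.comp.isBounded.exists_norm_le
    by_contra hxne
    have hxn : 0 < ‖x‖ := norm_pos_iff.2 hxne
    have h0 : ∀ i, ⟪v i, x⟫_ℝ = 0 := fun i => by
      rw [← Pool.Agent.Y506.PV.ellv_apply, hx]
      rfl
    obtain ⟨c, hc⟩ : ∃ c : ℝ, c = (R + ‖z.2‖ + 1) / ‖x‖ := ⟨_, rfl⟩
    have hmem : (z.1, z.2 + c • x) ∈ rk φ v F := by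
      intro i
      have e1 : ⟪v i, (φ.symm z.1, z.2 + c • x).2⟫_ℝ = ⟪v i, z.2⟫_ℝ := by
        show ⟪v i, z.2 + c • x⟫_ℝ = _
        rw [inner_add_right, real_inner_smul_right, h0, mul_zero, add_zero]
      have hzi := hz i
      rw [e1]
      exact hzi
    have h1 := (norm_snd_le _).trans (hR _ hmem)
    have hR0 : 0 ≤ R := (norm_nonneg _).trans (hR z hz)
    have h2 : ‖c • x‖ = R + ‖z.2‖ + 1 := by
      rw [hc, norm_smul, Real.norm_eq_abs, abs_of_nonneg (by positivity),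
        div_mul_cancel₀ _ hxn.ne']
    have h3 : ‖c • x‖ ≤ ‖z.2 + c • x‖ + ‖z.2‖ := by
      have := norm_sub_le (z.2 + c • x) z.2
      rwa [add_sub_cancel_left] at this
    linarith
  have key := H m N hm hN (ellv v) hker (fun i => hv (F i))
    (fun i => fv_lc (h i)) (by
      have h1 : (fun x : E m => (1 + ‖x‖ ^ 2) * ∏ i, hv (F i) (ellv v x i)) =
          fun x => C⁻¹ * ((1 + ‖x‖ ^ 2) * Rv (rk φ v F) x) := by
        funext x
        rw [show (∏ i, hv (F i) (ellv v x i)) = C⁻¹ * Rv (rk φ v F) x from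
          congrFun hwf x]
        ring
      rw [h1]
      exact hadm.int.const_mul _) (by
      rw [hwf, integral_const_mul]
      exact mul_pos (inv_pos.2 hC) hadm.pos)
  rw [hRf]
  exact ccw_smul hC.ne' key

/-- the weak Poincaré inequality for the marginal -/
theorem km_rk (q : ℕ) (δ : ℝ) (hδ : 0 < δ) : ∃ A0 : ℝ, 0 < A0 ∧
    ∀ (N m D : ℕ) (k : Fin N → ℕ) (A Q : ℝ) (v : Fin N → E m) (F : ∀ i, ℝ → Set (E (k i)))
    (φ : (∀ i, E (k i)) ≃ₗ[ℝ] E D),
    N ≤ m + q → (∀ i, FD A Q (F i)) → CB (rk φ v F) → KM A0 δ (bl (rk φ v F)) := by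
  obtain ⟨κ, hκ, H⟩ := cc_marg q (δ / 34) (by positivity)
  obtain ⟨A1, hA1, H1⟩ := km_marg κ (δ / 34) hκ (by positivity)
  refine ⟨max A1 (1 / (4 * δ)), lt_max_of_lt_left hA1, fun N m D k A Q v F φ hN h hK => ?_⟩
  rcases Nat.eq_zero_or_pos m with hm | hm
  · subst hm
    have hp := bl_prob hK
    exact Pool.Agent.R755.KS.km_mono (le_max_right _ _) le_rfl
      (Pool.Agent.R755.KS.km_of_bp hδ (Pool.Agent.R755.KS.bp_zero zero_le_one _))
  · have h1 := H1 D m _ hK (H N m D k A Q v F φ hm hN h hK)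
    have e : 17 * (2 * (δ / 34)) = δ := by ring
    rw [e] at h1
    exact Pool.Agent.R755.KS.km_mono (le_max_left _ _) le_rfl h1

end Pool.Agent.W5h33.KL
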