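import Pool.Agent.W5h33.KL.Qc
import Pool.Agent.W5h33.KL.Mc
import Pool.Agent.R751.MB.Apc

/-!
# Bodies fibred over few ridge functions belong to the class of centred fibrations
-/

set_option autoImplicit false

namespace Pool.Agent.W5h33.KL

open MeasureTheory Set Filter Topology ProbabilityTheory
open scoped ENNReal InnerProductSpace Pointwise
open Pool.Agent.R754.KG (E un sl Rv un_prob un_int)
open Pool.Agent.R755.KF (CB sl_comp sl_conv int_of_vol)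
open Pool.Agent.R755.KS (KM bl int_cont bl_prob bl_bdd QC Ct km_profile km_mono cb_pre)
open Pool.Agent.R755.KS.KS9aux
open Pool.Agent.R751.MB (AP Body)
open Pool.Agent.Y506.PV (CcW ind)

/-- bodies with a Poincaré inequality satisfy weak Poincaré inequalities for all linear images -/
theorem ap_km (A : ℝ) (hA : 0 < A) : ∃ A' : ℝ → ℝ, (∀ δ, 0 < A' δ) ∧ ∀ (n : ℕ) (K : Set (E n)),
    IsCompact K → Convex ℝ K → (interior K).Nonempty → AP A (Pool.Agent.R751.MB.ind K) →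
    ∀ δ : ℝ, 0 < δ → KM (A' δ) δ (un K) := by
  obtain ⟨A', h1, h2⟩ := km_profile (P := fun n K => IsCompact K ∧ Convex ℝ K ∧
    (interior K).Nonempty ∧ AP A (Pool.Agent.R751.MB.ind K)) (fun δ hδ => by
      obtain ⟨κ, hκ, H⟩ := Pool.Agent.R751.MB.apc A δ hA hδ
      exact ⟨κ, hκ, fun n K hK => ⟨hK.1, hK.2.1, hK.2.2.1, H n _ hK.2.2.2⟩⟩)
  exact ⟨A', h1, fun n K k1 k2 k3 k4 => (h2 n K ⟨k1, k2, k3, k4⟩).2.2.2⟩

/-- **the class contains the bodies fibred over few ridge functions** -/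
theorem rb_ct (q : ℕ) (c0 Q : ℝ) (hc0 : 0 < c0) (hQ : 0 ≤ Q) : ∃ A : ℝ → ℝ,
    ∀ (d r n N m : ℕ) (k : Fin N → ℕ) (e : ((∀ i, E (k i)) × E m) ≃ₗ[ℝ] E n) (v : Fin N → E m)
    (F : ∀ i, ℝ → Set (E (k i))), N ≤ m + q → (∀ i, FD c0 Q (F i)) →
    IsCompact (e '' rb v F) → (interior (e '' rb v F)).Nonempty →
    Ct A (2 * Q) d r 1 n (e '' rb v F) := by
  obtain ⟨A1, hA1, H1⟩ := ap_km c0 hc0
  choose A2 hA2 H2 using fun δ : {δ : ℝ // 0 < δ} => km_rk q δ.1 δ.2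
  refine ⟨fun δ => if hδ : 0 < δ then max (A1 δ) (A2 ⟨δ, hδ⟩) else 0,
    fun d r n N m k e v F hN h hc hi => ?_⟩
  obtain ⟨D, hD⟩ : ∃ D, D = Module.finrank ℝ (∀ i : Fin N, E (k i)) := ⟨_, rfl⟩
  let φ : (∀ i, E (k i)) ≃ₗ[ℝ] E D := LinearEquiv.ofFinrankEq _ _ (by simp [hD])
  let e' : (E D × E m) ≃ₗ[ℝ] E n :=
    (LinearEquiv.prodCongr φ.symm (LinearEquiv.refl ℝ (E m))).trans e
  have he : ∀ x t, e' (x, t) = e (φ.symm x, t) := fun x t => rfl
  have hpre : e' ⁻¹' (e '' rb v F) = rk φ v F := by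
    ext z
    obtain ⟨x, t⟩ := z
    rw [mem_preimage, he]
    constructor
    · rintro ⟨w, hw, hwe⟩
      rw [e.injective hwe] at hw
      exact hw
    · intro hz
      exact ⟨_, hz, rfl⟩
  have hcv : Convex ℝ (e '' rb v F) := (rb_convex h).linear_image e.toLinearMap
  have hCB : CB (rk φ v F) := by
    rw [← hpre]
    exact cb_pre e' hc hcv hi
  refine .cent 0 D m n _ e' hc hcv hi ?_ ?_ ?_ ?_
  · rw [hpre]
    intro t ht
    have hap := ap_fib h hc0.le φ t ht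
    refine .base _ _ (sl_comp hCB t) (sl_conv hCB t) (int_of_vol (sl_conv hCB t) ht)
      fun δ hδ => ?_
    rw [dif_pos hδ]
    exact km_mono (le_max_left _ _) le_rfl (H1 D _ (sl_comp hCB t) (sl_conv hCB t)
      (int_of_vol (sl_conv hCB t) ht) hap δ hδ)
  · rw [hpre]
    exact fun t ht θ => centred h φ t θ
  · rw [hpre]
    exact ⟨_, qc_rk h hQ φ hCB⟩
  · rw [hpre]
    intro δ hδ
    rw [dif_pos hδ]
    exact km_mono (le_max_right _ _) le_rfl (H2 ⟨δ, hδ⟩ N m D k c0 Q v F φ hN h hCB)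

end Pool.Agent.W5h33.KL
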