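import Pool.Agent.W5h33.KL.Gen
import Pool.Agent.R751.MB.Stm
import Pool.Agent.Y506.RG.Stm

/-!
# Bodies fibred over few ridge functions: the body and the volumes of the fibres
-/

set_option autoImplicit false

namespace Pool.Agent.W5h33.KL

open MeasureTheory Set Filter Topology
open scoped ENNReal InnerProductSpace Pointwise
open Pool.Agent.R754.KG (E un sl Rv un_prob un_int)
open Pool.Agent.R751.MB (AP)
open Pool.Agent.Y506.RG (LC1)

/-- concave families of symmetric convex bodies with Poincaré inequalities and comparable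
covariances -/
structure FD (A Q : ℝ) {n : ℕ} (F : ℝ → Set (E n)) : Prop where
  comp : ∀ s, IsCompact (F s)
  conv : ∀ s s' a b : ℝ, 0 ≤ a → 0 ≤ b → a + b = 1 → ∀ x ∈ F s, ∀ y ∈ F s',
    a • x + b • y ∈ F (a * s + b * s')
  even : ∀ s, ∀ x ∈ F s, x ∈ F (-s)
  symm : ∀ s, ∀ x ∈ F s, -x ∈ F s
  poi : ∀ s, volume (F s) ≠ 0 → AP A (Pool.Agent.R751.MB.ind (F s))
  cov : ∀ S s s' : ℝ, |s| ≤ S → |s'| ≤ S / 2 → (F S).Nonempty → volume (F s) ≠ 0 →
    ∀ L : E n →ₗ[ℝ] ℝ, ∫ x, L x ^ 2 ∂(un (F s)) ≤ Q * ∫ x, L x ^ 2 ∂(un (F s'))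

theorem FD.mono {A A' Q Q' : ℝ} {n : ℕ} {F : ℝ → Set (E n)} (h : FD A Q F)
    (hA : ∀ w : E n → ℝ, AP A w → AP A' w) (hQ : Q ≤ Q') : FD A' Q' F :=
  ⟨h.comp, h.conv, h.even, h.symm, fun s hs => hA _ (h.poi s hs), fun S s s' h1 h2 h3 h4 L =>
    (h.cov S s s' h1 h2 h3 h4 L).trans (mul_le_mul_of_nonneg_right hQ
      (integral_nonneg fun x => sq_nonneg _))⟩

theorem FD.convex {A Q : ℝ} {n : ℕ} {F : ℝ → Set (E n)} (h : FD A Q F) (s : ℝ) :
    Convex ℝ (F s) := by
  intro x hx y hy a b ha hb hab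
  have h1 := h.conv s s a b ha hb hab x hx y hy
  rwa [← add_mul, hab, one_mul] at h1

/-- the volumes are log-concave -/
theorem fv_lc {A Q : ℝ} {n : ℕ} {F : ℝ → Set (E n)} (h : FD A Q F) :
    LC1 fun s => (volume (F s)).toReal := by
  have hfin : ∀ s, volume (F s) ≠ ⊤ := fun s => (h.comp s).measure_lt_top.ne
  have hlc : ∀ x y t : ℝ, 0 < t → t < 1 → (volume (F x)).toReal ^ (1 - t) *
      (volume (F y)).toReal ^ t ≤ (volume (F ((1 - t) * x + t * y))).toReal := by
    intro x y t h0 h1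
    have hm : ∀ s, MeasurableSet (F s) := fun s => (h.comp s).measurableSet
    have hPL := Pool.Agent.H212R2.KLS.PL (volume : Measure (E n)) t h0 h1
      ((F x).indicator fun _ => (1 : ℝ≥0∞)) ((F y).indicator fun _ => (1 : ℝ≥0∞))
      ((F ((1 - t) * x + t * y)).indicator fun _ => (1 : ℝ≥0∞)) (measurable_const.indicator (hm _))
      (measurable_const.indicator (hm _)) (measurable_const.indicator (hm _)) (by
        intro a b
        by_cases ha : a ∈ F x
        · by_cases hb : b ∈ F y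
          · have hz := h.conv x y (1 - t) t (by linarith) h0.le (by ring) a ha b hb
            rw [indicator_of_mem ha, indicator_of_mem hb, indicator_of_mem hz, ENNReal.one_rpow,
              ENNReal.one_rpow, mul_one]
          · rw [indicator_of_notMem hb, ENNReal.zero_rpow_of_pos h0, mul_zero]
            exact zero_le
        · rw [indicator_of_notMem ha, ENNReal.zero_rpow_of_pos (by linarith), zero_mul]
          exact zero_le)
    rw [lintegral_indicator_const (hm _), lintegral_indicator_const (hm _),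
      lintegral_indicator_const (hm _), one_mul, one_mul, one_mul] at hPL
    have h2 := ENNReal.toReal_mono (hfin _) hPL
    rwa [ENNReal.toReal_mul, ← ENNReal.toReal_rpow, ← ENNReal.toReal_rpow] at h2
  refine ⟨fun s => ENNReal.toReal_nonneg, ?_, hlc⟩
  refine measurable_of_Ici fun c => ?_
  rcases le_or_gt c 0 with hc | hc
  · have : (fun s => (volume (F s)).toReal) ⁻¹' Ici c = univ := by
      ext s
      simp only [mem_preimage, mem_Ici, mem_univ, iff_true]
      exact hc.trans ENNReal.toReal_nonneg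
    rw [this]
    exact MeasurableSet.univ
  · have hconv : Convex ℝ ((fun s => (volume (F s)).toReal) ⁻¹' Ici c) := by
      intro s hs s' hs' a b ha hb hab
      simp only [mem_preimage, mem_Ici, smul_eq_mul] at hs hs' ⊢
      rcases ha.eq_or_lt with h1 | h1
      · have h2 : b = 1 := by linarith
        rw [← h1, h2, zero_mul, one_mul, zero_add]
        exact hs'
      rcases hb.eq_or_lt with h2 | h2
      · have h3 : a = 1 := by linarith
        rw [← h2, h3, zero_mul, one_mul, add_zero]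
        exact hs
      have h3 := hlc s s' b h2 (by linarith)
      have h4 : 1 - b = a := by linarith
      rw [h4] at h3
      refine le_trans ?_ h3
      calc c = c ^ a * c ^ b := by rw [← Real.rpow_add hc, hab, Real.rpow_one]
        _ ≤ (volume (F s)).toReal ^ a * (volume (F s')).toReal ^ b := by
            refine mul_le_mul (Real.rpow_le_rpow hc.le hs ha) (Real.rpow_le_rpow hc.le hs' hb)
              (Real.rpow_nonneg hc.le _) (Real.rpow_nonneg ENNReal.toReal_nonneg _)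
    exact hconv.ordConnected.measurableSet

variable {N m : ℕ} {k : Fin N → ℕ} {A Q : ℝ} {v : Fin N → E m} {F : ∀ i, ℝ → Set (E (k i))} {D : ℕ}

/-- `{(x, t) | x_i ∈ F_i(⟪v_i, t⟫) for all i}` -/
def rb (v : Fin N → E m) (F : ∀ i, ℝ → Set (E (k i))) : Set ((∀ i, E (k i)) × E m) :=
  {z | ∀ i, z.1 i ∈ F i ⟪v i, z.2⟫_ℝ}

theorem rb_convex (h : ∀ i, FD A Q (F i)) : Convex ℝ (rb v F) := by
  intro z hz z' hz' a b ha hb hab i
  have e1 : ⟪v i, (a • z + b • z').2⟫_ℝ = a * ⟪v i, z.2⟫_ℝ + b * ⟪v i, z'.2⟫_ℝ := by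
    rw [Prod.snd_add, Prod.smul_snd, Prod.smul_snd, inner_add_right, real_inner_smul_right,
      real_inner_smul_right]
  rw [e1]
  exact (h i).conv _ _ a b ha hb hab _ (hz i) _ (hz' i)

/-- the body in `ℝ^D × ℝ^m` -/
def rk (φ : (∀ i, E (k i)) ≃ₗ[ℝ] E D) (v : Fin N → E m) (F : ∀ i, ℝ → Set (E (k i))) :
    Set (E D × E m) :=
  {z | (φ.symm z.1, z.2) ∈ rb v F}

theorem rk_neg (h : ∀ i, FD A Q (F i)) (φ : (∀ i, E (k i)) ≃ₗ[ℝ] E D) :
    ∀ z ∈ rk φ v F, -z ∈ rk φ v F := by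
  intro z hz i
  have h1 := hz i
  show φ.symm (-z).1 i ∈ F i ⟪v i, (-z).2⟫_ℝ
  rw [Prod.fst_neg, Prod.snd_neg, map_neg, inner_neg_right]
  exact (h i).even _ _ ((h i).symm _ _ h1)

theorem sl_eq (φ : (∀ i, E (k i)) ≃ₗ[ℝ] E D) (t : E m) :
    sl (rk φ v F) t = φ '' univ.pi fun i => F i ⟪v i, t⟫_ℝ := by
  ext y
  constructor
  · intro hy
    exact ⟨φ.symm y, fun i _ => hy i, φ.apply_symm_apply y⟩
  · rintro ⟨x, hx, rfl⟩ i
    show φ.symm (φ x) i ∈ _
    rw [φ.symm_apply_apply]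
    exact hx i (mem_univ i)

/-- the volumes of the fibres -/
theorem rv_eq (φ : (∀ i, E (k i)) ≃ₗ[ℝ] E D) : ∃ C : ℝ, 0 < C ∧
    ∀ t : E m, Rv (rk φ v F) t = C * ∏ i, (volume (F i ⟪v i, t⟫_ℝ)).toReal := by
  obtain ⟨c, hc0, hct, hc⟩ := vol_img φ
  refine ⟨c.toReal, ENNReal.toReal_pos hc0 hct, fun t => ?_⟩
  unfold Rv
  rw [sl_eq φ t, hc, volume_pi_pi, ENNReal.toReal_mul, ENNReal.toReal_prod]

/-- the factors of a fibre of positive volume have positive volume -/
theorem fac_ne (φ : (∀ i, E (k i)) ≃ₗ[ℝ] E D) (t : E m) (ht : volume (sl (rk φ v F) t) ≠ 0)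
    (i : Fin N) : volume (F i ⟪v i, t⟫_ℝ) ≠ 0 := by
  obtain ⟨c, hc0, hct, hc⟩ := vol_img φ
  rw [sl_eq φ t, hc, volume_pi_pi] at ht
  intro h0
  apply ht
  rw [Finset.prod_eq_zero (Finset.mem_univ i) h0, mul_zero]

end Pool.Agent.W5h33.KL
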