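import Pool.Agent.R754.KG.B
import Pool.Agent.H212R2.KLS.T1

/-!
# Linear images and products of uniform measures
-/

set_option autoImplicit false

namespace Pool.Agent.W5h33.KL

open MeasureTheory Set Filter Topology
open scoped ENNReal InnerProductSpace Pointwise
open Pool.Agent.R754.KG (E un sl Rv un_prob un_int)

variable {N m : ℕ} {k : Fin N → ℕ}

/-! ### linear images of uniform measures -/

section gen

variable {V W : Type} [NormedAddCommGroup V] [NormedSpace ℝ V] [FiniteDimensional ℝ V]
  [MeasureSpace V] [BorelSpace V] [(volume : Measure V).IsAddHaarMeasure]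
  [NormedAddCommGroup W] [NormedSpace ℝ W] [FiniteDimensional ℝ W]
  [MeasureSpace W] [BorelSpace W] [(volume : Measure W).IsAddHaarMeasure]

theorem vol_img (e : V ≃ₗ[ℝ] W) : ∃ c : ℝ≥0∞, c ≠ 0 ∧ c ≠ ⊤ ∧
    ∀ S : Set V, volume (e '' S) = c * volume S := by
  let e' : V ≃L[ℝ] W := e.toContinuousLinearEquiv
  have hme : MeasurableEmbedding e' := e'.toHomeomorph.measurableEmbedding
  have hh : (Measure.map e' (volume : Measure V)).IsAddHaarMeasure :=
    e'.isAddHaarMeasure_map volume
  obtain ⟨c, hc⟩ : ∃ c : NNReal, (volume : Measure W) =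
      c • Measure.map e' (volume : Measure V) := ⟨_, Measure.isAddLeftInvariant_eq_smul _ _⟩
  refine ⟨c, ?_, ENNReal.coe_ne_top, fun S => ?_⟩
  · intro h0
    have h1 : (volume : Measure W) univ = 0 := by
      rw [hc]
      have : (c • Measure.map e' (volume : Measure V)) univ =
        (c : ℝ≥0∞) * Measure.map e' (volume : Measure V) univ := rfl
      rw [this, h0, zero_mul]
    exact (isOpen_univ.measure_pos (volume : Measure W) univ_nonempty).ne' h1
  · rw [hc]
    have h2 : (c • Measure.map e' (volume : Measure V)) (e '' S) =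
      (c : ℝ≥0∞) * Measure.map e' (volume : Measure V) (e '' S) := rfl
    rw [h2, hme.map_apply]
    congr 2
    exact preimage_image_eq S e.injective

theorem un_img (e : V ≃ₗ[ℝ] W) {S : Set V} :
    un (e '' S) = Measure.map e (un S) := by
  let e' : V ≃L[ℝ] W := e.toContinuousLinearEquiv
  have hme : MeasurableEmbedding e := e'.toHomeomorph.measurableEmbedding
  obtain ⟨c, hc0, hct, hc⟩ := vol_img e
  ext T hT
  rw [hme.map_apply]
  unfold un
  rw [Measure.smul_apply, Measure.smul_apply, Measure.restrict_apply hT,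
    Measure.restrict_apply (hme.measurable hT), smul_eq_mul, smul_eq_mul, hc]
  have h1 : T ∩ e '' S = e '' (e ⁻¹' T ∩ S) := by
    rw [image_preimage_inter]
  rw [h1, hc, ENNReal.mul_inv (Or.inl hc0) (Or.inl hct)]
  rw [show c⁻¹ * (volume S)⁻¹ * (c * volume (e ⁻¹' T ∩ S)) =
    (c⁻¹ * c) * ((volume S)⁻¹ * volume (e ⁻¹' T ∩ S)) by ring, ENNReal.inv_mul_cancel hc0 hct,
    one_mul]

end gen

/-- uniform measures of products -/
theorem un_pi {S : ∀ i, Set (E (k i))}
    (h0 : ∀ i, volume (S i) ≠ 0) (h1 : ∀ i, volume (S i) ≠ ⊤) :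
    un (univ.pi S) = Measure.pi fun i => un (S i) := by
  have hp : ∀ i, IsProbabilityMeasure (un (S i)) := fun i => un_prob (h0 i) (h1 i)
  symm
  refine Measure.pi_eq fun T hT => ?_
  unfold un
  rw [Measure.smul_apply, Measure.restrict_apply (MeasurableSet.univ_pi hT), ← pi_inter_distrib,
    volume_pi_pi, volume_pi_pi, smul_eq_mul]
  have h2 : (∏ i, volume (S i))⁻¹ = ∏ i, (volume (S i))⁻¹ := by
    rw [ENNReal.prod_inv_distrib]
    intro i _ j _ _
    exact Or.inl (h0 i)
  rw [h2, ← Finset.prod_mul_distrib]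
  refine Finset.prod_congr rfl fun i _ => ?_
  rw [Measure.smul_apply, Measure.restrict_apply (hT i), smul_eq_mul]

end Pool.Agent.W5h33.KL
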