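import Pool.Agent.H212R2.KLS.T1

/-!
# Half of the mass of a symmetric convex set lies in the middle half of every slab
-/

set_option autoImplicit false

namespace Pool.Agent.W5h33.KL

open MeasureTheory Set Filter Topology
open scoped ENNReal Pointwise

theorem half_mass {V : Type} [NormedAddCommGroup V] [NormedSpace ℝ V] [FiniteDimensional ℝ V]
    [MeasurableSpace V] [BorelSpace V] (ν : Measure V) [ν.IsAddHaarMeasure] (K : Set V)
    (hm : MeasurableSet K) (hc : Convex ℝ K) (hs : ∀ x ∈ K, -x ∈ K) (f : V →ₗ[ℝ] ℝ) (S : ℝ)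
    (hS : ∀ x ∈ K, f x ≤ S) : ν K ≤ 2 * ν (K ∩ {x | |f x| ≤ S / 2}) := by
  have hfc : Continuous f := f.continuous_of_finiteDimensional
  have hS' : ∀ x ∈ K, -S ≤ f x := by
    intro x hx
    have := hS _ (hs x hx)
    rw [map_neg] at this
    linarith
  obtain ⟨A, hA⟩ : ∃ A : Set V, A = K ∩ {x | S / 2 < f x} := ⟨_, rfl⟩
  obtain ⟨A', hA'⟩ : ∃ A : Set V, A = K ∩ {x | f x < -(S / 2)} := ⟨_, rfl⟩
  obtain ⟨T, hT⟩ : ∃ A : Set V, A = K ∩ {x | 0 < f x ∧ f x ≤ S / 2} := ⟨_, rfl⟩
  obtain ⟨T', hT'⟩ : ∃ A : Set V, A = K ∩ {x | -(S / 2) ≤ f x ∧ f x < 0} := ⟨_, rfl⟩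
  have mA : MeasurableSet A := by
    rw [hA]
    exact hm.inter (isOpen_lt continuous_const hfc).measurableSet
  have mA' : MeasurableSet A' := by
    rw [hA']
    exact hm.inter (isOpen_lt hfc continuous_const).measurableSet
  have mT : MeasurableSet T := by
    rw [hT]
    exact hm.inter ((isOpen_lt continuous_const hfc).measurableSet.inter
      (isClosed_le hfc continuous_const).measurableSet)
  have mT' : MeasurableSet T' := by
    rw [hT']
    exact hm.inter ((isClosed_le continuous_const hfc).measurableSet.inter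
      (isOpen_lt hfc continuous_const).measurableSet)
  have hneg : ∀ U : Set V, ν ((-1 : ℝ) • U) = ν U := by
    intro U
    rw [Measure.addHaar_smul, abs_pow, abs_neg, abs_one, one_pow, ENNReal.ofReal_one, one_mul]
  have eA : (-1 : ℝ) • A = A' := by
    ext x
    rw [mem_smul_set_iff_inv_smul_mem₀ (by norm_num), hA, hA']
    have e : (-1 : ℝ)⁻¹ • x = -x := by rw [inv_neg, inv_one, neg_one_smul]
    rw [e]
    constructor
    · rintro ⟨h1, h2⟩
      have h3 := hs _ h1
      rw [neg_neg] at h3
      refine ⟨h3, ?_⟩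
      have h4 : S / 2 < f (-x) := h2
      rw [map_neg] at h4
      show f x < -(S / 2)
      linarith
    · rintro ⟨h1, h2⟩
      refine ⟨hs _ h1, ?_⟩
      have h4 : f x < -(S / 2) := h2
      show S / 2 < f (-x)
      rw [map_neg]
      linarith
  have eT : (-1 : ℝ) • T = T' := by
    ext x
    rw [mem_smul_set_iff_inv_smul_mem₀ (by norm_num), hT, hT']
    have e : (-1 : ℝ)⁻¹ • x = -x := by rw [inv_neg, inv_one, neg_one_smul]
    rw [e]
    constructor
    · rintro ⟨h1, h2⟩
      have h3 := hs _ h1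
      rw [neg_neg] at h3
      refine ⟨h3, ?_⟩
      have h4 : 0 < f (-x) ∧ f (-x) ≤ S / 2 := h2
      rw [map_neg] at h4
      show -(S / 2) ≤ f x ∧ f x < 0
      exact ⟨by linarith [h4.2], by linarith [h4.1]⟩
    · rintro ⟨h1, h2⟩
      refine ⟨hs _ h1, ?_⟩
      have h4 : -(S / 2) ≤ f x ∧ f x < 0 := h2
      show 0 < f (-x) ∧ f (-x) ≤ S / 2
      rw [map_neg]
      exact ⟨by linarith [h4.2], by linarith [h4.1]⟩
  have vA : ν A' = ν A := by rw [← eA, hneg]
  have vT : ν T' = ν T := by rw [← eT, hneg]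
  -- the Prékopa-Leindler inequality
  have hPL : ν A ≤ ν T := by
    have h := Pool.Agent.H212R2.KLS.PL ν (1 / 3) (by norm_num) (by norm_num)
      (A.indicator fun _ => (1 : ℝ≥0∞)) (A'.indicator fun _ => (1 : ℝ≥0∞))
      (T.indicator fun _ => (1 : ℝ≥0∞)) (measurable_const.indicator mA)
      (measurable_const.indicator mA') (measurable_const.indicator mT) (by
        intro x y
        by_cases hx : x ∈ A
        · by_cases hy : y ∈ A'
          · have hz : ((1 : ℝ) - 1 / 3) • x + (1 / 3 : ℝ) • y ∈ T := by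
              rw [hA] at hx
              rw [hA'] at hy
              rw [hT]
              refine ⟨hc hx.1 hy.1 (by norm_num) (by norm_num) (by norm_num), ?_⟩
              have h1 : S / 2 < f x := hx.2
              have h2 : f y < -(S / 2) := hy.2
              have h3 := hS x hx.1
              have h4 := hS' y hy.1
              show 0 < f _ ∧ f _ ≤ S / 2
              rw [map_add, map_smul, map_smul, smul_eq_mul, smul_eq_mul]
              constructor <;> linarith
            rw [indicator_of_mem hx, indicator_of_mem hy, indicator_of_mem hz, ENNReal.one_rpow,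
              ENNReal.one_rpow, mul_one]
          · rw [indicator_of_notMem hy, ENNReal.zero_rpow_of_pos (by norm_num), mul_zero]
            exact zero_le
        · rw [indicator_of_notMem hx, ENNReal.zero_rpow_of_pos (by norm_num), zero_mul]
          exact zero_le)
    rw [lintegral_indicator_const mA, lintegral_indicator_const mA', lintegral_indicator_const mT,
      one_mul, one_mul, one_mul, vA, ← ENNReal.rpow_add_of_nonneg _ _ (by norm_num) (by norm_num)]
      at h
    norm_num at h
    exact h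
  -- the decomposition
  have hM : ν T + ν T' ≤ ν (K ∩ {x | |f x| ≤ S / 2}) := by
    rw [← measure_union (by
      rw [hT, hT']
      rw [Set.disjoint_left]
      rintro x ⟨-, h1⟩ ⟨-, h2⟩
      have h3 : 0 < f x := h1.1
      have h4 : f x < 0 := h2.2
      linarith) mT']
    refine measure_mono ?_
    rintro x (hx | hx)
    · rw [hT] at hx
      refine ⟨hx.1, ?_⟩
      have h1 : 0 < f x ∧ f x ≤ S / 2 := hx.2
      show |f x| ≤ S / 2
      rw [abs_of_pos h1.1]
      exact h1.2
    · rw [hT'] at hx
      refine ⟨hx.1, ?_⟩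
      have h1 : -(S / 2) ≤ f x ∧ f x < 0 := hx.2
      show |f x| ≤ S / 2
      rw [abs_of_neg h1.2]
      linarith [h1.1]
  have hK : ν K ≤ ν A + ν A' + ν (K ∩ {x | |f x| ≤ S / 2}) := by
    have h1 : K ⊆ (A ∪ A') ∪ (K ∩ {x | |f x| ≤ S / 2}) := by
      intro x hx
      rcases lt_or_ge (S / 2) (f x) with h2 | h2
      · left; left
        rw [hA]
        exact ⟨hx, h2⟩
      · rcases lt_or_ge (f x) (-(S / 2)) with h3 | h3
        · left; right
          rw [hA']
          exact ⟨hx, h3⟩
        · right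
          exact ⟨hx, abs_le.2 ⟨h3, h2⟩⟩
    refine (measure_mono h1).trans ((measure_union_le _ _).trans ?_)
    gcongr
    exact measure_union_le _ _
  calc ν K ≤ ν A + ν A' + ν (K ∩ {x | |f x| ≤ S / 2}) := hK
    _ ≤ ν T + ν T' + ν (K ∩ {x | |f x| ≤ S / 2}) := by
        rw [vA, vT]
        gcongr
    _ ≤ ν (K ∩ {x | |f x| ≤ S / 2}) + ν (K ∩ {x | |f x| ≤ S / 2}) := by gcongr
    _ = _ := (two_mul _).symm

end Pool.Agent.W5h33.KL
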