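import Pool.Agent.R755.KS.Conv
import Pool.Agent.R755.KF.W1

/-!
# Marginals of convex bodies: from isotropic position to linear images
-/

set_option autoImplicit false

namespace Pool.Agent.W5h33.KL

open MeasureTheory Set Filter Topology
open scoped ENNReal InnerProductSpace
open Pool.Agent.H888R2.KT (gs gc gc_pos gs_deriv)
open Pool.Agent.R754.KG (E un sl Rv)
open Pool.Agent.W695.KH (Eu EV VV Sm)
open Pool.Agent.R755.KF Pool.Agent.R755.KF.W1aux Pool.Agent.R755.KF.T36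
  Pool.Agent.R755.KF.T6aux
open Pool.Agent.R755.KS (KM int_cont)

/-- the weak Poincaré inequality for all linear images follows from the one in isotropic position -/
theorem km_of_iso {N : ℕ} {ρ : Measure (E N)} [IsProbabilityMeasure ρ] {B : ℝ}
    (hB : ∀ᵐ x ∂ρ, ‖x‖ ≤ B)
    {a δ : ℝ} (ha : 0 ≤ a) (A : E N ≃ₗ[ℝ] E N)
    (hA : ∀ θ : E N, (∫ x, ⟪A x, θ⟫_ℝ ^ 2 ∂ρ) - (∫ x, ⟪A x, θ⟫_ℝ ∂ρ) ^ 2 = ‖θ‖ ^ 2)
    (hP : ∀ (f : E N → ℝ) (L M : ℝ), Sm f L M →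
      (∫ x, f (A x) ^ 2 ∂ρ) - (∫ x, f (A x) ∂ρ) ^ 2 ≤
        δ + a * ∫ x, ‖fderiv ℝ f (A x)‖ ^ 2 ∂ρ) : KM a δ ρ := by
  intro k T s hs hT M v hv hv1
  have hM : 0 ≤ M := (abs_nonneg _).trans (hv.bd 0)
  obtain ⟨L, hL⟩ : ∃ L : E N →L[ℝ] E k, ∀ x, L x = T (A.symm x) :=
    ⟨LinearMap.toContinuousLinearMap (T ∘ₗ A.symm.toLinearMap), fun x => rfl⟩
  have hLA : ∀ x, L (A x) = T x := fun x => by rw [hL, A.symm_apply_apply]
  -- the adjoint
  have hadj : ∀ θ : E k, ‖ContinuousLinearMap.adjoint L θ‖ ^ 2 ≤ s * ‖θ‖ ^ 2 := by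
    intro θ
    rcases eq_or_ne θ 0 with rfl | hθ
    · simp
    have hθ' : ‖θ‖ ≠ 0 := norm_ne_zero_iff.2 hθ
    have h1 := hT (‖θ‖⁻¹ • θ) (by rw [norm_smul, norm_inv, norm_norm, inv_mul_cancel₀ hθ'])
    have h2 := hA (ContinuousLinearMap.adjoint L θ)
    have e1 : ∀ x, ⟪A x, ContinuousLinearMap.adjoint L θ⟫_ℝ = ⟪T x, θ⟫_ℝ := fun x => by
      rw [ContinuousLinearMap.adjoint_inner_right, hLA]
    simp only [e1] at h2
    simp only [inner_smul_right, mul_pow] at h1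
    rw [integral_const_mul, integral_const_mul, mul_pow, ← mul_sub, h2] at h1
    have h3 : 0 < ‖θ‖ ^ 2 := by positivity
    rw [inv_pow] at h1
    calc ‖ContinuousLinearMap.adjoint L θ‖ ^ 2
        = ‖θ‖ ^ 2 * ((‖θ‖ ^ 2)⁻¹ * ‖ContinuousLinearMap.adjoint L θ‖ ^ 2) := by
          field_simp
      _ ≤ ‖θ‖ ^ 2 * s := mul_le_mul_of_nonneg_left h1 h3.le
      _ = _ := mul_comm _ _
  have hnorm : ‖L‖ ^ 2 ≤ s := by
    have h1 : ‖ContinuousLinearMap.adjoint L‖ ≤ Real.sqrt s := by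
      refine ContinuousLinearMap.opNorm_le_bound _ (Real.sqrt_nonneg _) fun θ => ?_
      have h2 := Real.sqrt_le_sqrt (hadj θ)
      rwa [Real.sqrt_sq (norm_nonneg _), Real.sqrt_mul hs.le, Real.sqrt_sq (norm_nonneg _)] at h2
    have h2 : ‖ContinuousLinearMap.adjoint L‖ = ‖L‖ :=
      (ContinuousLinearMap.adjoint (𝕜 := ℝ) (E := E N) (F := E k)).norm_map L
    rw [h2] at h1
    calc ‖L‖ ^ 2 ≤ (Real.sqrt s) ^ 2 := pow_le_pow_left₀ (norm_nonneg _) h1 2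
      _ = s := Real.sq_sqrt hs.le
  have hAc : Continuous A := A.toLinearMap.continuous_of_finiteDimensional
  have hTc : Continuous T := T.continuous_of_finiteDimensional
  have hsq : ∀ h : ℝ, 0 < h → ∀ (g : E k → ℝ) (C : ℝ),
      Continuous g → (∀ y, |g y| ≤ C) → ∀ x, gs h g x ^ 2 ≤ gs h (fun y => g y ^ 2) x :=
    fun h hh g C hg hgb x => gs_sq be hh hg hgb x
  have hgc : ∀ h : ℝ, 0 < h → Continuous (gs h v) := fun h hh =>
    (gs_deriv h hh v hv.c1 M hv.bd hv.gd).1.continuous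
  have hgc2 : ∀ h : ℝ, 0 < h → Continuous (gs h fun y => ‖fderiv ℝ v y‖ ^ 2) := fun h hh =>
    (be k h (M ^ 2) _ hh (cont_nfd hv) (bd_nfd hv)).1.continuous
  -- the inequality for the averages
  have key : ∀ h : ℝ, 0 < h →
      (∫ x, gs h v (T x) ^ 2 ∂ρ) - (∫ x, gs h v (T x) ∂ρ) ^ 2 ≤
        δ + a * (s * ∫ x, gs h (fun y => ‖fderiv ℝ v y‖ ^ 2) (T x) ∂ρ) := by
    intro h hh
    obtain ⟨h1, h2⟩ := sm_comp hh hv hv1 L
    have h3 := hP _ _ _ h1
    simp only [hLA] at h3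
    refine h3.trans ?_
    have hle : ∀ x, ‖fderiv ℝ (fun y => gs h v (L y)) (A x)‖ ^ 2 ≤
        s * gs h (fun y => ‖fderiv ℝ v y‖ ^ 2) (T x) := by
      intro x
      rw [h2, hLA]
      have h4 : ‖(fderiv ℝ (gs h v) (T x)).comp L‖ ≤ ‖fderiv ℝ (gs h v) (T x)‖ * ‖L‖ :=
        ContinuousLinearMap.opNorm_comp_le _ _
      have h5 := grad_gs hh (hsq h hh) hv (T x)
      calc ‖(fderiv ℝ (gs h v) (T x)).comp L‖ ^ 2 ≤ (‖fderiv ℝ (gs h v) (T x)‖ * ‖L‖) ^ 2 :=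
            pow_le_pow_left₀ (norm_nonneg _) h4 2
        _ = ‖L‖ ^ 2 * ‖fderiv ℝ (gs h v) (T x)‖ ^ 2 := by ring
        _ ≤ s * gs h (fun y => ‖fderiv ℝ v y‖ ^ 2) (T x) :=
            mul_le_mul hnorm h5 (sq_nonneg _) hs.le
    have h6 : ∫ x, ‖fderiv ℝ (fun y => gs h v (L y)) (A x)‖ ^ 2 ∂ρ ≤
        s * ∫ x, gs h (fun y => ‖fderiv ℝ v y‖ ^ 2) (T x) ∂ρ := by
      rw [← integral_const_mul]
      refine integral_mono (int_cont hB ?_) (int_cont hB ?_) hle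
      · exact ((h1.diff.continuous_fderiv one_ne_zero).comp hAc).norm.pow 2
      · exact ((hgc2 h hh).comp hTc).const_mul s
    have h7 := mul_le_mul_of_nonneg_left h6 ha
    linarith
  -- the limit
  let τ : ℕ → ℝ := fun n => 1 / ((n : ℝ) + 1)
  have hτ : ∀ n, 0 < τ n := fun n => by
    show 0 < 1 / ((n : ℝ) + 1)
    positivity
  have hlim : Tendsto τ atTop (𝓝 0) := tendsto_one_div_add_atTop_nhds_zero_nat
  have t1 : Tendsto (fun n => ∫ x, gs (τ n) v (T x) ^ 2 ∂ρ) atTop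
      (𝓝 (∫ x, v (T x) ^ 2 ∂ρ)) := by
    refine tendsto_integral_of_dominated_convergence (fun _ => (1 : ℝ)) (fun n => ?_)
      (integrable_const _) (fun n => Eventually.of_forall fun x => ?_)
      (Eventually.of_forall fun x => ?_)
    · exact (((hgc _ (hτ n)).comp hTc).pow 2).aestronglyMeasurable
    · rw [Real.norm_eq_abs, abs_pow]
      exact pow_le_one₀ (abs_nonneg _) (gs_le_bd (hτ n) hv.c1.continuous hv1 _)
    · exact (gs_tendsto hv.c1.continuous hv1 _ τ hτ hlim).pow 2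
  have t2 : Tendsto (fun n => ∫ x, gs (τ n) v (T x) ∂ρ) atTop
      (𝓝 (∫ x, v (T x) ∂ρ)) := by
    refine tendsto_integral_of_dominated_convergence (fun _ => (1 : ℝ)) (fun n => ?_)
      (integrable_const _) (fun n => Eventually.of_forall fun x => ?_)
      (Eventually.of_forall fun x => ?_)
    · exact ((hgc _ (hτ n)).comp hTc).aestronglyMeasurable
    · rw [Real.norm_eq_abs]
      exact gs_le_bd (hτ n) hv.c1.continuous hv1 _
    · exact gs_tendsto hv.c1.continuous hv1 _ τ hτ hlim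
  have t3 : Tendsto (fun n => ∫ x, gs (τ n) (fun y => ‖fderiv ℝ v y‖ ^ 2) (T x) ∂ρ) atTop
      (𝓝 (∫ x, ‖fderiv ℝ v (T x)‖ ^ 2 ∂ρ)) := by
    refine tendsto_integral_of_dominated_convergence (fun _ => M ^ 2) (fun n => ?_)
      (integrable_const _) (fun n => Eventually.of_forall fun x => ?_)
      (Eventually.of_forall fun x => ?_)
    · exact ((hgc2 _ (hτ n)).comp hTc).aestronglyMeasurable
    · rw [Real.norm_eq_abs]
      exact gs_le_bd (hτ n) (cont_nfd hv) (bd_nfd hv) _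
    · exact gs_tendsto (cont_nfd hv) (bd_nfd hv) _ τ hτ hlim
  have t4 := le_of_tendsto_of_tendsto' (t1.sub (t2.pow 2))
    (((t3.const_mul s).const_mul a).const_add δ) fun n => key _ (hτ n)
  rw [mul_assoc]
  exact t4

end Pool.Agent.W5h33.KL
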