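import Pool.Agent.W5h33.KL.Fib
import Pool.Agent.W5h33.KL.Hf
import Pool.Agent.R755.KS.Dis
import Pool.Agent.R755.KS.Conv
import Pool.Agent.R755.KS.KS10

/-!
# Bodies fibred over few ridge functions: the covariances of the fibres
-/

set_option autoImplicit false

namespace Pool.Agent.W5h33.KL

open MeasureTheory Set Filter Topology ProbabilityTheory
open scoped ENNReal InnerProductSpace Pointwise
open Pool.Agent.R754.KG (E un sl Rv un_prob un_int)
open Pool.Agent.R755.KF (CB)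
open Pool.Agent.R755.KS (KM bl int_cont bl_prob bl_bdd QC)
open Pool.Agent.R755.KS.KS9aux
open Pool.Agent.R755.KS.KS6aux (mf dis ae_pos mf_int mf_meas)

variable {N m : ℕ} {k : Fin N → ℕ} {A Q : ℝ} {v : Fin N → E m} {F : ∀ i, ℝ → Set (E (k i))} {D : ℕ}

theorem gi_cont (φ : (∀ i, E (k i)) ≃ₗ[ℝ] E D) (i : Fin N) (L : E (k i) →ₗ[ℝ] ℝ) :
    Continuous fun z : E D × E m => L (φ.symm z.1 i) ^ 2 := by
  have hφs : Continuous φ.symm := φ.symm.toLinearMap.continuous_of_finiteDimensional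
  have hLc : Continuous L := L.continuous_of_finiteDimensional
  exact (hLc.comp ((continuous_apply i).comp (hφs.comp continuous_fst))).pow 2

/-- second moments of a block of a fibre are bounded by those of the body -/
theorem blk_le (h : ∀ i, FD A Q (F i)) (hQ : 0 ≤ Q) (φ : (∀ i, E (k i)) ≃ₗ[ℝ] E D)
    (hK : CB (rk φ v F)) (i : Fin N) (L : E (k i) →ₗ[ℝ] ℝ) (t : E m)
    (ht : volume (sl (rk φ v F) t) ≠ 0) :
    ∫ x, L x ^ 2 ∂(un (F i ⟪v i, t⟫_ℝ)) ≤
      2 * Q * ∫ z, L (φ.symm z.1 i) ^ 2 ∂(un (rk φ v F)) := by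
  have hp := bl_prob hK
  have hHaar := Pool.Agent.R755.KS.KS10aux.haar_prod D m
  have hc := gi_cont (m := m) φ i L
  rw [dis hK hc fun z => sq_nonneg _]
  obtain ⟨f, hf⟩ : ∃ f : E D × E m →ₗ[ℝ] ℝ, ∀ z, f z = ⟪v i, z.2⟫_ℝ :=
    ⟨((innerSL ℝ (v i) : E m →L[ℝ] ℝ) : E m →ₗ[ℝ] ℝ) ∘ₗ LinearMap.snd ℝ (E D) (E m), fun z => rfl⟩
  have hfc : Continuous f := f.continuous_of_finiteDimensional
  have hne : (rk φ v F).Nonempty := by
    by_contra hc
    rw [not_nonempty_iff_eq_empty] at hc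
    have := hK.pos
    rw [hc, measure_empty] at this
    exact lt_irrefl _ this
  obtain ⟨z0, hz0, hmax⟩ := hK.comp.exists_isMaxOn hne hfc.continuousOn
  obtain ⟨S, hS⟩ : ∃ S, S = f z0 := ⟨_, rfl⟩
  have hfS : ∀ z ∈ rk φ v F, f z ≤ S := fun z hz => by
    rw [hS]
    exact hmax hz
  have hSne : (F i S).Nonempty := by
    refine ⟨φ.symm z0.1 i, ?_⟩
    rw [hS, hf]
    exact hz0 i
  have hts : |⟪v i, t⟫_ℝ| ≤ S := by
    obtain ⟨x, hx⟩ := nonempty_of_measure_ne_zero ht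
    have h1 := hfS (x, t) hx
    have h2 := hfS _ (rk_neg h φ (x, t) hx)
    rw [map_neg, hf] at h2
    rw [hf] at h1
    exact abs_le.2 ⟨by simp only at h2; linarith, h1⟩
  have hhalf := half_mass (volume : Measure (E D × E m)) (rk φ v F) (meas hK) hK.conv
    (rk_neg h φ) f S hfS
  obtain ⟨U, hU⟩ : ∃ U : Set (E m), U = {t | |⟪v i, t⟫_ℝ| ≤ S / 2} := ⟨_, rfl⟩
  have hUm : MeasurableSet U := by
    rw [hU]
    have : Continuous fun t : E m => |⟪v i, t⟫_ℝ| := by fun_prop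
    exact (isClosed_le this continuous_const).measurableSet
  have hUP : 1 / 2 ≤ (bl (rk φ v F)).real U := by
    have h1 : (bl (rk φ v F)) U = (volume (rk φ v F))⁻¹ *
        volume (rk φ v F ∩ {x | |f x| ≤ S / 2}) := by
      unfold bl
      rw [Measure.map_apply measurable_snd hUm]
      unfold un
      rw [Measure.smul_apply, Measure.restrict_apply (measurable_snd hUm), smul_eq_mul, inter_comm]
      congr 3
      ext z
      rw [hU]
      show |⟪v i, z.2⟫_ℝ| ≤ S / 2 ↔ |f z| ≤ S / 2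
      rw [hf]
    have h2 : (1 : ℝ≥0∞) ≤ 2 * (bl (rk φ v F)) U := by
      rw [h1]
      calc (1 : ℝ≥0∞) = (volume (rk φ v F))⁻¹ * volume (rk φ v F) :=
            (ENNReal.inv_mul_cancel hK.pos.ne' (kfin hK)).symm
        _ ≤ (volume (rk φ v F))⁻¹ *
            (2 * volume (rk φ v F ∩ {x | |f x| ≤ S / 2})) := by gcongr
        _ = _ := by ring
    have h3 : (2 * (bl (rk φ v F)) U).toReal = 2 * (bl (rk φ v F)).real U := by
      rw [ENNReal.toReal_mul]; rfl
    have h4 : (1 : ℝ) ≤ (2 * (bl (rk φ v F)) U).toReal := by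
      have := ENNReal.toReal_mono (ENNReal.mul_ne_top (by norm_num) (measure_ne_top _ _)) h2
      simpa using this
    rw [h3] at h4
    linarith
  obtain ⟨b, hb⟩ : ∃ b : ℝ, b = ∫ x, L x ^ 2 ∂(un (F i ⟪v i, t⟫_ℝ)) := ⟨_, rfl⟩
  have hb0 : 0 ≤ b := by rw [hb]; exact integral_nonneg fun x => sq_nonneg _
  rw [← hb]
  have hint := mf_int hK hc fun z => sq_nonneg _
  have hlow : b * (bl (rk φ v F)).real U ≤
      Q * ∫ t, mf (rk φ v F) (fun z => L (φ.symm z.1 i) ^ 2) t ∂(bl (rk φ v F)) := by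
    have h1 : b * (bl (rk φ v F)).real U =
        ∫ t, U.indicator (fun _ => b) t ∂(bl (rk φ v F)) := by
      rw [integral_indicator_const _ hUm, smul_eq_mul, mul_comm]
    rw [h1, ← integral_const_mul]
    refine integral_mono_ae ((integrable_const _).indicator hUm) (hint.const_mul Q) ?_
    filter_upwards [ae_pos hK] with t' ht'
    show U.indicator (fun _ => b) t' ≤ Q * mf (rk φ v F) (fun z => L (φ.symm z.1 i) ^ 2) t'
    have h2 : mf (rk φ v F) (fun z => L (φ.symm z.1 i) ^ 2) t' =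
        ∫ x, L x ^ 2 ∂(un (F i ⟪v i, t'⟫_ℝ)) := blk_mom h φ t' ht' i L
    rw [h2]
    by_cases htU : t' ∈ U
    · rw [indicator_of_mem htU, hb]
      rw [hU] at htU
      exact (h i).cov S _ _ hts htU hSne (fac_ne φ t ht i) L
    · rw [indicator_of_notMem htU]
      exact mul_nonneg hQ (integral_nonneg fun x => sq_nonneg _)
  nlinarith

/-- the covariances of the fibres -/
theorem qc_rk (h : ∀ i, FD A Q (F i)) (hQ : 0 ≤ Q) (φ : (∀ i, E (k i)) ≃ₗ[ℝ] E D)
    (hK : CB (rk φ v F)) : QC (2 * Q) (rk φ v F) fun _ => 2 * Q := by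
  have hp := bl_prob hK
  refine ⟨measurable_const, fun _ => by positivity, integrable_const _, ?_, fun t ht θ => ?_⟩
  · simp
  · have hc : Continuous fun z : E D × E m => ⟪z.1, θ⟫_ℝ ^ 2 := by fun_prop
    have hE : ∫ z, ⟪z.1, θ⟫_ℝ ^ 2 ∂(un (rk φ v F)) =
        ∑ i, ∫ z, lf φ θ i (φ.symm z.1 i) ^ 2 ∂(un (rk φ v F)) := by
      rw [dis hK hc fun z => sq_nonneg _]
      have h1 : ∫ t, mf (rk φ v F) (fun z => ⟪z.1, θ⟫_ℝ ^ 2) t ∂(bl (rk φ v F)) =
          ∫ t, ∑ i, mf (rk φ v F) (fun z => lf φ θ i (φ.symm z.1 i) ^ 2) t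
            ∂(bl (rk φ v F)) := by
        refine integral_congr_ae ?_
        filter_upwards [ae_pos hK] with t' ht'
        show ∫ x, ⟪x, θ⟫_ℝ ^ 2 ∂(un (sl (rk φ v F) t')) = _
        rw [fib_mom h φ t' ht' θ]
        exact Finset.sum_congr rfl fun i _ => (blk_mom h φ t' ht' i (lf φ θ i)).symm
      rw [h1, integral_finsetSum _ fun i _ => mf_int hK (gi_cont φ i (lf φ θ i))
        fun z => sq_nonneg _]
      exact Finset.sum_congr rfl fun i _ => (dis hK (gi_cont φ i (lf φ θ i))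
        fun z => sq_nonneg _).symm
    rw [fib_mom h φ t ht θ, hE, Finset.mul_sum]
    exact Finset.sum_le_sum fun i _ => blk_le h hQ φ hK i (lf φ θ i) t ht

end Pool.Agent.W5h33.KL
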