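import Pool.Agent.W5h33.KL.Sm

/-!
# The second moments of convex sets which contain a cube
-/

set_option autoImplicit false

namespace Pool.Agent.W5h33.KL

open MeasureTheory Set Filter Topology
open scoped ENNReal InnerProductSpace Pointwise
open Pool.Agent.R754.KG (E un sl Rv un_prob un_int)

variable {n : ℕ}

/-- the cube -/
def cub (n : ℕ) (a : ℝ) : Set (E n) := {x | ∀ i, |x i| ≤ a}

theorem cub_vol (a : ℝ) (ha : 0 ≤ a) : volume (cub n a) = ENNReal.ofReal ((2 * a) ^ n) := by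
  have h1 := EuclideanSpace.volume_preserving_symm_measurableEquiv_toLp (Fin n)
  have h2 : cub n a = (MeasurableEquiv.toLp 2 (Fin n → ℝ)).symm ⁻¹'
      (univ.pi fun _ => Icc (-a) a) := by
    ext x
    constructor
    · intro hx i _
      exact abs_le.1 (hx i)
    · intro hx i
      exact abs_le.2 (hx i (mem_univ i))
  rw [h2, h1.measure_preimage (MeasurableSet.univ_pi fun _ => measurableSet_Icc).nullMeasurableSet,
    volume_pi_pi]
  simp only [Real.volume_Icc, Finset.prod_const, Finset.card_univ, Fintype.card_fin]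
  rw [← ENNReal.ofReal_pow (by linarith)]
  congr 2
  ring

/-- most of a set which contains a cube is not near to the origin -/
theorem far_mass (hn : 1 ≤ n) {K : Set (E n)} (hm : MeasurableSet K) {a : ℝ} (ha : 0 < a)
    (hK : cub n a ⊆ K) :
    volume (K ∩ {x | ‖x‖ ^ 2 ≤ n * a ^ 2 / 8}) ≤ ENNReal.ofReal (9 / 10) * volume K := by
  have hV : ENNReal.ofReal ((2 * a) ^ n) ≤ volume K := by
    rw [← cub_vol a ha.le]
    exact measure_mono hK
  obtain ⟨b, hb⟩ : ∃ b : ℝ, b = 4 / a ^ 2 := ⟨_, rfl⟩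
  have hb0 : 0 < b := by rw [hb]; positivity
  have hg : Integrable fun x : E n => Real.exp (-b * ‖x‖ ^ 2) := by
    have := GaussianFourier.integrable_cexp_neg_mul_sq_norm_add (V := E n) (b := (b : ℂ))
      (by simpa using hb0) 0 0
    have h2 := this.norm
    refine h2.congr (Eventually.of_forall fun x => ?_)
    simp only [zero_mul, add_zero]
    rw [Complex.norm_exp]
    congr 1
    have : (-(b : ℂ) * (‖x‖ : ℂ) ^ 2) = ((-b * ‖x‖ ^ 2 : ℝ) : ℂ) := by push_cast; ring
    rw [this, Complex.ofReal_re]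
  have hgi := GaussianFourier.integral_rexp_neg_mul_sq_norm (V := E n) hb0
  have h1 : volume (K ∩ {x | ‖x‖ ^ 2 ≤ n * a ^ 2 / 8}) ≤
      ∫⁻ x : E n, ENNReal.ofReal (Real.exp (n / 2) * Real.exp (-b * ‖x‖ ^ 2)) := by
    have hms : MeasurableSet (K ∩ {x : E n | ‖x‖ ^ 2 ≤ n * a ^ 2 / 8}) :=
      hm.inter (isClosed_le (by fun_prop) continuous_const).measurableSet
    rw [← lintegral_indicator_one hms]
    refine lintegral_mono fun x => ?_
    by_cases hx : x ∈ K ∩ {x : E n | ‖x‖ ^ 2 ≤ n * a ^ 2 / 8}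
    · rw [indicator_of_mem hx, Pi.one_apply, ← ENNReal.ofReal_one]
      refine ENNReal.ofReal_le_ofReal ?_
      rw [← Real.exp_add]
      refine Real.one_le_exp ?_
      have h2 : ‖x‖ ^ 2 ≤ n * a ^ 2 / 8 := hx.2
      have h3 : b * ‖x‖ ^ 2 ≤ n / 2 := by
        calc b * ‖x‖ ^ 2 ≤ b * (n * a ^ 2 / 8) := mul_le_mul_of_nonneg_left h2 hb0.le
          _ = n / 2 := by rw [hb]; field_simp; norm_num
      linarith
    · rw [indicator_of_notMem hx]
      exact zero_le
  have h2 : ∫⁻ x : E n, ENNReal.ofReal (Real.exp (n / 2) * Real.exp (-b * ‖x‖ ^ 2)) =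
      ENNReal.ofReal (Real.exp (n / 2) * (Real.pi / b) ^ ((n : ℝ) / 2)) := by
    rw [← ofReal_integral_eq_lintegral_ofReal (hg.const_mul _)
      (Eventually.of_forall fun x => by positivity), integral_const_mul, hgi,
      finrank_euclideanSpace_fin]
  have h3 : Real.exp (n / 2) * (Real.pi / b) ^ ((n : ℝ) / 2) ≤ (9 / 10) * (2 * a) ^ n := by
    have e1 : Real.exp (n / 2) = (Real.exp (1 / 2)) ^ n := by
      rw [← Real.exp_nat_mul]; congr 1; ring
    have e2 : (Real.pi / b) ^ ((n : ℝ) / 2) ≤ a ^ n := by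
      have h4 : Real.pi / b ≤ a ^ 2 := by
        rw [hb, div_div_eq_mul_div, div_le_iff₀ (by norm_num)]
        have := Real.pi_le_four
        nlinarith [sq_nonneg a]
      calc (Real.pi / b) ^ ((n : ℝ) / 2) ≤ (a ^ 2) ^ ((n : ℝ) / 2) :=
            Real.rpow_le_rpow (by positivity) h4 (by positivity)
        _ = a ^ n := by
            rw [← Real.rpow_natCast a 2, ← Real.rpow_mul ha.le]
            push_cast
            rw [mul_div_cancel₀ (n : ℝ) (by norm_num : (2 : ℝ) ≠ 0), Real.rpow_natCast]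
    have e3 : Real.exp (1 / 2) ≤ 9 / 10 * 2 := by
      have h4 : Real.exp (1 / 2) ^ 2 = Real.exp 1 := by
        rw [← Real.exp_nat_mul]; norm_num
      have h5 := Real.exp_one_lt_d9
      have h6 : Real.exp (1 / 2) ^ 2 ≤ (9 / 10 * 2) ^ 2 := by
        rw [h4]; norm_num; linarith
      exact (abs_le_of_sq_le_sq' h6 (by norm_num)).2
    have e4 : Real.exp (1 / 2) ^ n ≤ 9 / 10 * 2 ^ n := by
      calc Real.exp (1 / 2) ^ n ≤ (9 / 10 * 2) ^ n := pow_le_pow_left₀ (Real.exp_pos _).le e3 n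
        _ = (9 / 10) ^ n * 2 ^ n := mul_pow _ _ _
        _ ≤ 9 / 10 * 2 ^ n := by
            refine mul_le_mul_of_nonneg_right ?_ (by positivity)
            calc ((9 : ℝ) / 10) ^ n ≤ (9 / 10) ^ 1 :=
                  pow_le_pow_of_le_one (by norm_num) (by norm_num) hn
              _ = 9 / 10 := pow_one _
    rw [e1]
    calc Real.exp (1 / 2) ^ n * (Real.pi / b) ^ ((n : ℝ) / 2) ≤ (9 / 10 * 2 ^ n) * a ^ n :=
          mul_le_mul e4 e2 (by positivity) (by positivity)
      _ = _ := by rw [mul_pow]; ring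
  calc volume (K ∩ {x | ‖x‖ ^ 2 ≤ n * a ^ 2 / 8}) ≤
        ENNReal.ofReal (Real.exp (n / 2) * (Real.pi / b) ^ ((n : ℝ) / 2)) := h1.trans h2.le
    _ ≤ ENNReal.ofReal ((9 / 10) * (2 * a) ^ n) := ENNReal.ofReal_le_ofReal h3
    _ = ENNReal.ofReal (9 / 10) * ENNReal.ofReal ((2 * a) ^ n) := ENNReal.ofReal_mul (by norm_num)
    _ ≤ _ := by gcongr

/-- the second moments of sets which contain a cube -/
theorem cub_mom (hn : 1 ≤ n) {K : Set (E n)} (hc : IsCompact K) {a : ℝ} (ha : 0 < a)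
    (hK : cub n a ⊆ K) : volume K ≠ 0 ∧ n * a ^ 2 / 80 ≤ ∫ x, ‖x‖ ^ 2 ∂(un K) := by
  have h0 : volume K ≠ 0 := by
    have h1 : 0 < volume (cub n a) := by
      rw [cub_vol a ha.le]
      exact ENNReal.ofReal_pos.2 (by positivity)
    exact (lt_of_lt_of_le h1 (measure_mono hK)).ne'
  refine ⟨h0, ?_⟩
  have ht : volume K ≠ ⊤ := hc.measure_lt_top.ne
  have hp : IsProbabilityMeasure (un K) := un_prob h0 ht
  obtain ⟨U, hU⟩ : ∃ U : Set (E n), U = {x | ‖x‖ ^ 2 ≤ n * a ^ 2 / 8} := ⟨_, rfl⟩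
  have hUm : MeasurableSet U := by
    rw [hU]
    exact (isClosed_le (by fun_prop) continuous_const).measurableSet
  have h1 : un K U ≤ ENNReal.ofReal (9 / 10) := by
    unfold un
    rw [Measure.smul_apply, Measure.restrict_apply hUm, smul_eq_mul, inter_comm]
    have h2 := far_mass hn hc.measurableSet ha hK
    rw [← hU] at h2
    calc (volume K)⁻¹ * volume (K ∩ U) ≤ (volume K)⁻¹ * (ENNReal.ofReal (9 / 10) * volume K) := by
          gcongr
      _ = ENNReal.ofReal (9 / 10) * ((volume K)⁻¹ * volume K) := by ring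
      _ = _ := by rw [ENNReal.inv_mul_cancel h0 ht, mul_one]
  have h2 : (un K).real U ≤ 9 / 10 := by
    have := ENNReal.toReal_mono ENNReal.ofReal_ne_top h1
    rwa [ENNReal.toReal_ofReal (by norm_num)] at this
  have h3 : (un K).real Uᶜ = 1 - (un K).real U := by
    rw [measureReal_compl hUm, probReal_univ]
  have h4 : (n * a ^ 2 / 8) * (un K).real Uᶜ ≤ ∫ x, ‖x‖ ^ 2 ∂(un K) := by
    have h5 : (n * a ^ 2 / 8) * (un K).real Uᶜ = ∫ x, Uᶜ.indicator (fun _ => n * a ^ 2 / 8) x ∂(un K) := by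
      rw [integral_indicator_const _ hUm.compl, smul_eq_mul, mul_comm]
    rw [h5]
    refine integral_mono_ae ((integrable_const _).indicator hUm.compl)
      (un_int (f := fun x : E n => ‖x‖ ^ 2) h0 hc.isBounded (by fun_prop)) (Eventually.of_forall fun x => ?_)
    show Uᶜ.indicator (fun _ => n * a ^ 2 / 8) x ≤ ‖x‖ ^ 2
    by_cases hx : x ∈ Uᶜ
    · rw [indicator_of_mem hx]
      rw [hU, mem_compl_iff, mem_ofPred_eq, not_le] at hx
      exact hx.le
    · rw [indicator_of_notMem hx]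
      positivity
  have h5 : (1 : ℝ) / 10 ≤ (un K).real Uᶜ := by rw [h3]; linarith
  have h6 : (0 : ℝ) ≤ n * a ^ 2 / 8 := by positivity
  nlinarith

end Pool.Agent.W5h33.KL
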