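import Pool.Agent.W5h33.KL.Hom

/-!
# Sets which are invariant under permutations and sign changes of the coordinates: moments
-/

set_option autoImplicit false

namespace Pool.Agent.W5h33.KL

open MeasureTheory Set Filter Topology
open scoped ENNReal InnerProductSpace Pointwise
open Pool.Agent.R754.KG (E un sl Rv un_prob un_int)

variable {n : ℕ}

/-- invariance under permutations and sign changes of the coordinates -/
def OS (K : Set (E n)) : Prop :=
  ∀ σ : Equiv.Perm (Fin n), ∀ x y : E n, (∀ i, |y i| = |x (σ i)|) → x ∈ K → y ∈ K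

/-- signed permutations -/
noncomputable def sg (σ : Equiv.Perm (Fin n)) (ε : Fin n → ℝ) (hε : ∀ i, ε i * ε i = 1) :
    E n ≃ₗ[ℝ] E n where
  toFun x := WithLp.toLp 2 fun i => ε i * x (σ i)
  map_add' x y := by
    ext i
    show ε i * (x (σ i) + y (σ i)) = ε i * x (σ i) + ε i * y (σ i)
    ring
  map_smul' c x := by
    ext i
    show ε i * (c * x (σ i)) = c * (ε i * x (σ i))
    ring
  invFun x := WithLp.toLp 2 fun i => ε (σ.symm i) * x (σ.symm i)
  left_inv x := by
    ext i
    show ε (σ.symm i) * (ε (σ.symm i) * x (σ (σ.symm i))) = x i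
    rw [σ.apply_symm_apply, ← mul_assoc, hε, one_mul]
  right_inv x := by
    ext i
    show ε i * (ε (σ.symm (σ i)) * x (σ.symm (σ i))) = x i
    rw [σ.symm_apply_apply, ← mul_assoc, hε, one_mul]

theorem sg_apply (σ : Equiv.Perm (Fin n)) (ε : Fin n → ℝ) (hε : ∀ i, ε i * ε i = 1) (x : E n)
    (i : Fin n) : sg σ ε hε x i = ε i * x (σ i) := rfl

theorem abs_eps {ε : Fin n → ℝ} (hε : ∀ i, ε i * ε i = 1) (i : Fin n) : |ε i| = 1 := by
  have h := hε i
  rw [← abs_mul_abs_self] at h
  nlinarith [abs_nonneg (ε i)]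

theorem sg_img {K : Set (E n)} (hK : OS K) (σ : Equiv.Perm (Fin n)) (ε : Fin n → ℝ)
    (hε : ∀ i, ε i * ε i = 1) : sg σ ε hε '' K = K := by
  ext y
  constructor
  · rintro ⟨x, hx, rfl⟩
    refine hK σ x _ (fun i => ?_) hx
    rw [sg_apply, abs_mul, abs_eps hε, one_mul]
  · intro hy
    refine ⟨(sg σ ε hε).symm y, ?_, (sg σ ε hε).apply_symm_apply y⟩
    refine hK σ.symm y _ (fun i => ?_) hy
    show |ε (σ.symm i) * y (σ.symm i)| = _
    rw [abs_mul, abs_eps hε, one_mul]

theorem sg_int {K : Set (E n)} (hK : OS K) (σ : Equiv.Perm (Fin n)) (ε : Fin n → ℝ)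
    (hε : ∀ i, ε i * ε i = 1) (f : E n → ℝ) (hf : Continuous f) :
    ∫ x, f (sg σ ε hε x) ∂(un K) = ∫ x, f x ∂(un K) := by
  have h1 := un_img (sg σ ε hε) (S := K)
  rw [sg_img hK] at h1
  have hc : Continuous (sg σ ε hε) := (sg σ ε hε).toLinearMap.continuous_of_finiteDimensional
  conv_rhs => rw [h1]
  rw [integral_map hc.measurable.aemeasurable hf.aestronglyMeasurable]

theorem os_neg {K : Set (E n)} (hK : OS K) : ∀ x ∈ K, -x ∈ K := fun x hx =>
  hK (Equiv.refl _) x (-x) (fun i => by simp) hx

theorem os_sq {K : Set (E n)} (hK : OS K) (i j : Fin n) (f : ℝ → ℝ) (hf : Continuous f) :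
    ∫ x, f (x i) ∂(un K) = ∫ x, f (x j) ∂(un K) := by
  classical
  have h1 := sg_int hK (Equiv.swap i j) (fun _ => 1) (fun _ => one_mul 1) (fun x => f (x j))
    (by fun_prop)
  rw [← h1]
  refine integral_congr_ae (Eventually.of_forall fun x => ?_)
  show f (x i) = f (1 * x (Equiv.swap i j j))
  rw [one_mul, Equiv.swap_apply_right]

theorem os_cross {K : Set (E n)} (hK : OS K) {i j : Fin n} (hij : i ≠ j) :
    ∫ x, x i * x j ∂(un K) = 0 := by
  classical
  have hε : ∀ l, (fun l : Fin n => if l = i then (-1 : ℝ) else 1) l *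
      (fun l : Fin n => if l = i then (-1 : ℝ) else 1) l = 1 := by
    intro l
    by_cases h : l = i <;> simp [h]
  have h1 := sg_int hK (Equiv.refl _) (fun l => if l = i then (-1 : ℝ) else 1) hε
    (fun x => x i * x j) (by fun_prop)
  have h2 : ∫ x, (sg (Equiv.refl _) (fun l => if l = i then (-1 : ℝ) else 1) hε x) i *
      (sg (Equiv.refl _) (fun l => if l = i then (-1 : ℝ) else 1) hε x) j ∂(un K) =
      -∫ x, x i * x j ∂(un K) := by
    rw [← integral_neg]
    refine integral_congr_ae (Eventually.of_forall fun x => ?_)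
    simp only [sg_apply, Equiv.refl_apply, if_true, if_neg (Ne.symm hij)]
    ring
  rw [h2] at h1
  linarith

/-- the second moments -/
theorem os_mom {K : Set (E n)} (hK : OS K) (hb : Bornology.IsBounded K) (h0 : volume K ≠ 0)
    (j : Fin n) (u : E n) : ∫ x, ⟪x, u⟫_ℝ ^ 2 ∂(un K) = (∫ x, x j ^ 2 ∂(un K)) * ‖u‖ ^ 2 := by
  have hi : ∀ i l : Fin n, Integrable (fun x : E n => x i * x l * (u i * u l)) (un K) := fun i l =>
    un_int h0 hb (by fun_prop)
  have e1 : ∀ x : E n, ⟪x, u⟫_ℝ ^ 2 = ∑ i, ∑ l, x i * x l * (u i * u l) := by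
    intro x
    have h1 : ⟪x, u⟫_ℝ = ∑ i, x i * u i := by
      rw [PiLp.inner_apply]
      refine Finset.sum_congr rfl fun i _ => ?_
      show u i * x i = _
      ring
    rw [h1, sq, Finset.sum_mul_sum]
    refine Finset.sum_congr rfl fun i _ => Finset.sum_congr rfl fun l _ => ?_
    ring
  have e2 : ∫ x, ⟪x, u⟫_ℝ ^ 2 ∂(un K) = ∑ i, ∑ l, (∫ x, x i * x l ∂(un K)) * (u i * u l) := by
    simp only [e1]
    rw [integral_finsetSum _ fun i _ => integrable_finsetSum _ fun l _ => hi i l]
    refine Finset.sum_congr rfl fun i _ => ?_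
    rw [integral_finsetSum _ fun l _ => hi i l]
    refine Finset.sum_congr rfl fun l _ => ?_
    rw [integral_mul_const]
  rw [e2]
  have e3 : ∀ i, ∑ l, (∫ x, x i * x l ∂(un K)) * (u i * u l) =
      (∫ x, x j ^ 2 ∂(un K)) * u i ^ 2 := by
    intro i
    rw [Finset.sum_eq_single i]
    · have h1 : ∫ x, x i * x i ∂(un K) = ∫ x, x j ^ 2 ∂(un K) := by
        rw [← os_sq hK i j (fun r => r ^ 2) (by fun_prop)]
        refine integral_congr_ae (Eventually.of_forall fun x => ?_)
        simp only
        ring
      rw [h1]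
      ring
    · intro l _ hl
      rw [os_cross hK hl.symm, zero_mul]
    · intro h
      exact absurd (Finset.mem_univ i) h
  rw [Finset.sum_congr rfl fun i _ => e3 i, ← Finset.mul_sum, EuclideanSpace.norm_sq_eq]
  congr 1
  refine Finset.sum_congr rfl fun i _ => ?_
  rw [Real.norm_eq_abs, sq_abs]

/-- unconditional convex sets contain boxes -/
theorem os_box {K : Set (E n)} (hK : OS K) (hc : Convex ℝ K) {y : E n} (hy : y ∈ K) (x : E n)
    (hx : ∀ i, |x i| ≤ |y i|) : x ∈ K := by
  classical
  have key : ∀ s : Finset (Fin n), (WithLp.toLp 2 fun i => if i ∈ s then x i else y i : E n) ∈ K := by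
    intro s
    induction s using Finset.induction_on with
    | empty =>
      have : (WithLp.toLp 2 fun i => if i ∈ (∅ : Finset (Fin n)) then x i else y i : E n) = y := by
        ext i
        simp
      rw [this]
      exact hy
    | insert j s hj ih =>
      obtain ⟨z, hz⟩ : ∃ z : E n, z = WithLp.toLp 2 fun i => if i ∈ s then x i else y i := ⟨_, rfl⟩
      rw [← hz] at ih
      have hzj : z j = y j := by rw [hz]; simp [hj]
      obtain ⟨z', hz'⟩ : ∃ z' : E n, z' = WithLp.toLp 2 fun i => if i = j then -(z i) else z i :=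
        ⟨_, rfl⟩
      have hz'K : z' ∈ K := by
        refine hK (Equiv.refl _) z z' (fun i => ?_) ih
        rw [hz']
        by_cases h : i = j <;> simp [h]
      obtain ⟨l, hl0, hl1, hl⟩ : ∃ l : ℝ, 0 ≤ l ∧ l ≤ 1 ∧ x j = (1 - l) * y j + l * (-(y j)) := by
        have h1 := hx j
        by_cases h0 : y j = 0
        · refine ⟨0, le_rfl, zero_le_one, ?_⟩
          rw [h0, abs_zero] at h1
          rw [h0, abs_nonpos_iff.1 h1]
          ring
        · refine ⟨(1 - x j / y j) / 2, ?_, ?_, ?_⟩
          · have h2 : x j / y j ≤ 1 := by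
              refine (le_abs_self _).trans ?_
              rw [abs_div, div_le_one (abs_pos.2 h0)]
              exact h1
            linarith
          · have h2 : -1 ≤ x j / y j := by
              have h3 : |x j / y j| ≤ 1 := by
                rw [abs_div, div_le_one (abs_pos.2 h0)]
                exact h1
              exact (abs_le.1 h3).1
            linarith
          · field_simp
            ring
      have h2 := hc ih hz'K (by linarith : 0 ≤ 1 - l) hl0 (by ring)
      have h3 : (WithLp.toLp 2 fun i => if i ∈ insert j s then x i else y i : E n) =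
          (1 - l) • z + l • z' := by
        ext i
        rw [PiLp.add_apply, PiLp.smul_apply, PiLp.smul_apply, hz', smul_eq_mul, smul_eq_mul]
        by_cases h : i = j
        · subst h
          simp only [Finset.mem_insert, true_or, if_true]
          rw [hzj]
          exact hl
        · simp only [Finset.mem_insert, h, false_or, if_false]
          have h5 : z i = if i ∈ s then x i else y i := by rw [hz]
          rw [← h5]
          ring
      rw [h3]
      exact h2
  have h1 := key Finset.univ
  have h2 : (WithLp.toLp 2 fun i => if i ∈ (Finset.univ : Finset (Fin n)) then x i else y i : E n) =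
      x := by
    ext i
    simp
  rwa [h2] at h1

/-- symmetric convex bodies contain a cube -/
theorem os_cube {K : Set (E n)} (hK : OS K) (hc : Convex ℝ K) (hcp : IsCompact K)
    (h0 : volume K ≠ 0) (j : Fin n) (x : E n) (hx : ∀ i, |x i| ≤ ∫ y, |y j| ∂(un K)) : x ∈ K := by
  have hp : IsProbabilityMeasure (un K) := un_prob h0 hcp.measure_lt_top.ne
  have hab : Continuous fun y : E n => (WithLp.toLp 2 fun i => |y i| : E n) :=
    (PiLp.continuous_toLp 2 _).comp (by fun_prop)
  obtain ⟨R, hR⟩ := hcp.isBounded.exists_norm_le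
  have hae : ∀ᵐ y ∂(un K), y ∈ K := by
    unfold un
    apply Measure.ae_smul_measure
    exact ae_restrict_mem hcp.measurableSet
  have hmem : ∀ᵐ y ∂(un K), (WithLp.toLp 2 fun i => |y i| : E n) ∈ K := by
    filter_upwards [hae] with y hy
    exact hK (Equiv.refl _) y _ (fun i => by simp) hy
  have hint : Integrable (fun y : E n => (WithLp.toLp 2 fun i => |y i| : E n)) (un K) := by
    refine Integrable.of_bound hab.aestronglyMeasurable R ?_
    filter_upwards [hmem] with y hy
    exact hR _ hy
  have h1 := hc.integral_mem hcp.isClosed hmem hint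
  refine os_box hK hc h1 x fun i => ?_
  have h2 := (EuclideanSpace.proj (𝕜 := ℝ) (ι := Fin n) i).integral_comp_comm hint
  have h3 : (∫ y, (WithLp.toLp 2 fun i => |y i| : E n) ∂(un K)) i = ∫ y, |y i| ∂(un K) := h2.symm
  have h4 := os_sq hK i j (fun r => |r|) (by fun_prop)
  simp only at h4
  rw [h3, h4]
  exact (hx i).trans (le_abs_self _)

end Pool.Agent.W5h33.KL
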